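import Pool.Agent.P.MP_9344a7_nt.Defs

/-! Points of a constant curve over a global function field, and the Mordell-Weil sieve. -/

namespace Pool.Agent.P.MP_ab3ecb_nt.Cc

open Pool.Agent.P.MP_6f117a_ag (Place)
open Pool.Agent.P.MP_9344a7_nt (Curve Pic Div)

/-- The points with values in `Ω` of the curve with function field `E / k`. -/
abbrev Pt (k E Ω : Type) [Field k] [Field E] [Field Ω] [Algebra k E] [Algebra k Ω] :=
  Place k E ⊕ (E →ₐ[k] Ω)

/-- The point `y` reduces to the point `P` at the valuation ring `O`. -/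
def Red {k E Ω : Type} [Field k] [Field E] [Field Ω] [Algebra k E] [Algebra k Ω]
    (O : ValuationSubring Ω) : Pt k E Ω → Place k E → Prop
  | .inl Q, P => Q = P
  | .inr φ, P => ∀ z, P.v z ≤ 1 ↔ φ z ∈ O

variable {F E K Ω : Type} [Field F] [Fintype F] [Field E] [Field K] [Field Ω]
  [Algebra (AlgebraicClosure F) E] [Algebra (AlgebraicClosure F) K]
  [Algebra (AlgebraicClosure F) Ω] (C : Curve F E) (D : Curve F K)

/-- `y'` is the conjugate of `y` under an automorphism `σ` of `Ω` that extends Frobenius. -/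
def Tw (σ : Ω ≃+* Ω) : Pt (AlgebraicClosure F) E Ω → Pt (AlgebraicClosure F) E Ω → Prop
  | .inl P, .inl P' => P' = C.fr P
  | .inr φ, .inr φ' => ∀ z, φ' (C.Φ z) = σ (φ z)
  | _, _ => False

/-- The divisor `A` is rational over the function field of `D` over `F`. -/
def Rat (A : Pt (AlgebraicClosure F) E (AlgebraicClosure K) →₀ ℤ) : Prop :=
  ∀ σ : AlgebraicClosure K ≃+* AlgebraicClosure K,
    (∀ a, σ (algebraMap K _ a) = algebraMap K _ (D.Φ a)) → ∀ y y', Tw C σ y y' → A y' = A y

/-- The class of the reduction of `A` at the point `x` of `D` is `c`. -/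
def Val (A : Pt (AlgebraicClosure F) E (AlgebraicClosure K) →₀ ℤ)
    (x : Place (AlgebraicClosure F) K) (c : Pic (AlgebraicClosure F) E) : Prop :=
  ∀ O : ValuationSubring (AlgebraicClosure K), (∀ a, algebraMap K _ a ∈ O ↔ x.v a ≤ 1) →
    ∀ r, (∀ y, Red O y (r y)) → ((A.mapDomain r : Div (AlgebraicClosure F) E) : Pic _ E) = c

end Pool.Agent.P.MP_ab3ecb_nt.Cc
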