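import Pool.Agent.P.MP_ab3ecb_nt.Cc.BaseA

/-! Statements: the abstract argument. -/

namespace Pool.Agent.P.MP_ab3ecb_nt.Cc

open Polynomial

-- deps:
def S_PH0 : Prop := ∀ (Λ : Type) [AddCommGroup Λ] [Module.Finite ℤ Λ] (q : ℕ)
  (F : Module.End ℤ Λ) (b : Λ →+ Λ →+ ℚ), Lat q F b → ∀ n, 0 < n → ∀ a : Λ,
    ∃ (t : ℕ) (u : Λ), 0 < t ∧ t • a = (F ^ n) u - u

-- deps: PH0
def S_PH : Prop := ∀ (Λ : Type) [AddCommGroup Λ] [Module.Finite ℤ Λ] (q : ℕ)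
  (F : Module.End ℤ Λ) (b : Λ →+ Λ →+ ℚ), Lat q F b → ∀ ε : ℚ, 0 < ε → ∃ s : ℕ, ∀ n, 0 < n →
    ∃ col : Λ → Fin s, ∀ a a', col a = col a' → ∃ l,
      b (a - a' - ((F ^ n) l - l)) (a - a' - ((F ^ n) l - l)) ≤ ε * q ^ n

-- deps:
def S_FIT : Prop := ∀ (Λ : Type) [AddCommGroup Λ] [Module.Finite ℤ Λ] (q : ℕ)
  (F : Module.End ℤ Λ) (b : Λ →+ Λ →+ ℚ), Lat q F b → ∀ t m : ℕ, 0 < t → 0 < m →
    ∃ n1, 0 < n1 ∧ m ∣ n1 ∧ ∀ n, n1 ∣ n → ∀ g l : Λ, t • g = (F ^ n) l - l →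
      ∃ u, g = (F ^ m) u - u

-- deps: PH
def S_COL : Prop := ∀ (C D : AC) (H : AH C D) (q : ℕ), H.Ok q → H.FG → H.Col q

-- deps: FIT
def S_UPG : Prop := ∀ (C D : AC) (H : AH C D) (q : ℕ), H.Ok q → H.FG → H.Col q → H.Upg q

-- deps:
def S_MAINA : Prop := ∀ (C D : AC) (H : AH C D) (q : ℕ) (ψ : D.X → C.X), H.Ok q → H.Upg q →
  C.G2 → H.Sv ψ → (Set.range ψ).Finite → ∀ S : Finset D.X, ∃ f, ∀ x ∈ S, H.mv f x = ψ x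

-- deps:
def S_MAINB : Prop := ∀ (C D : AC) (H : AH C D) (q : ℕ) (ψ : D.X → C.X), H.Ok q → H.Col q →
  H.Upg q → C.G2 → H.Tri → H.Sv ψ → ∃ r : ℕ, ∀ m, 0 < m →
    (∃ f, ∀ x ∈ D.T m, H.mv f x = ψ x) ∨ (ψ '' D.T m).ncard ≤ r

-- deps: COL UPG MAINA MAINB
def S_MAIN : Prop := ∀ (C D : AC) (H : AH C D) (q : ℕ) (ψ : D.X → C.X), H.Ok q → H.FG →
  C.G2 → H.Tri → H.Sv ψ → ∀ S : Finset D.X, ∃ f, ∀ x ∈ S, H.mv f x = ψ x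

-- deps:
def S_GER : Prop := ∀ (A : Type) [AddCommGroup A] [Finite A] (F : Module.End ℤ A),
  Nat.card (aeval (R := ℤ) F).range ≤ Nat.card A

-- deps: GER
def S_POL : Prop := ∀ (C : AC) (H : AH C C) (q : ℕ), H.Ok q →
  (∃ y ∈ H.Mg, ∀ x, H.sp x y = C.cl x) → C.Pol

-- deps:
def S_CYC : Prop := ∀ (R : ℤ[X]) (l : ℕ), l.Prime → ¬ (l : ℤ) ∣ R.coeff 0 → ∃ n0, 0 < n0 ∧
  ∀ j : ℕ, ∃ Q S : ℤ[X], (X : ℤ[X]) ^ (n0 * l ^ j) - 1 = l ^ (j + 1) • Q + S * R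

-- deps:
def S_HOMC : Prop := ∀ (A A' : Type) [AddCommGroup A] [AddCommGroup A'] (l : ℕ),
  {a : A | l • a = 0}.Finite → {a : A' | l • a = 0}.Finite → ∃ r : ℕ, ∀ m : ℕ,
    ∀ s : Finset (A →+ A'),
      (∀ u ∈ s, ∀ v ∈ s, (∀ a, l ^ m • a = 0 → u a = v a) → u = v) → s.card ≤ r ^ m

-- deps:
def S_RK : Prop := ∀ (Λ : Type) [AddCommGroup Λ] (q : ℕ) (F : Module.End ℤ Λ) (b : Λ →+ Λ →+ ℚ)
  (l r m0 : ℕ) (η : ℚ), Lat q F b → 2 ≤ l → 0 < η → (∀ m, m0 ≤ m → ∀ s : Finset Λ,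
    (∀ a ∈ s, ∀ a' ∈ s, b (a - a') (a - a') ≤ η * (l ^ m) ^ 2) → s.card ≤ r ^ m) →
  ∀ s : Finset Λ, LinearIndependent ℤ ((↑) : s → Λ) → s.card ≤ r

-- deps:
def S_FGL : Prop := ∀ (Λ : Type) [AddCommGroup Λ] (q : ℕ) (F : Module.End ℤ Λ) (b : Λ →+ Λ →+ ℚ)
  (N r : ℕ), Lat q F b → 0 < N → (∀ a a', ∃ n : ℤ, N * b a a' = n) →
  (∀ s : Finset Λ, LinearIndependent ℤ ((↑) : s → Λ) → s.card ≤ r) → Module.Finite ℤ Λ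

-- deps:
def S_THETA : Prop := ∀ (C D : AC) (H : AH C D) (q : ℕ), H.Ok q →
  ∃ θ : H.M →+ D.P →+ C.P ⧸ C.Tq q, (∀ (a : H.M) x, θ a (D.cl x) = (H.sp x a : C.P)) ∧
    ∀ (a : H.M) (R : ℤ[X]) (x x' : D.X), θ a (aeval D.F R (D.cl x - D.cl x')) =
      (aeval C.F R (H.sp x a - H.sp x' a) : C.P)

-- deps: CYC
def S_EXP : Prop := ∀ (C D : AC) (q : ℕ), C.Ok q → D.Ok q → C.Pol → D.Pol →
  ∃ l n0 : ℕ, 2 ≤ l ∧ l.Coprime q ∧ 0 < n0 ∧ {a : D.P | l • a = 0}.Finite ∧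
    {a : C.P ⧸ C.Tq q | l • a = 0}.Finite ∧ ∀ j : ℕ, ∃ Q : ℤ[X],
      (∀ a, C.dg a = 0 → (C.F ^ (n0 * l ^ j)) a - a = l ^ (j + 1) • aeval C.F Q a) ∧
      ∀ a, D.dg a = 0 → (D.F ^ (n0 * l ^ j)) a - a = l ^ (j + 1) • aeval D.F Q a

-- deps:
def S_RKB : Prop := ∀ (C D : AC) (H : AH C D) (q l m n : ℕ) (Q : ℤ[X])
  (θ : H.M →+ D.P →+ C.P ⧸ C.Tq q) (Z : Finset D.X), H.Ok q → l.Coprime q → 0 < l → 0 < n →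
  (∀ (a : H.M) (x x' : D.X), θ a (aeval D.F Q (D.cl x - D.cl x')) =
      (aeval C.F Q (H.sp x a - H.sp x' a) : C.P)) →
  (∀ a, C.dg a = 0 → (C.F ^ n) a - a = l ^ m • aeval C.F Q a) →
  (∀ a, D.dg a = 0 → (D.F ^ n) a - a = l ^ m • aeval D.F Q a) →
  (∀ x ∈ Z, x ∈ D.T n) → (q : ℚ) ^ n ≤ 2 * Z.card → ∀ d : H.M,
    (∀ z, l ^ m • z = 0 → θ d z = 0) → (8 * H.c + 1) * H.β d d ≤ (l ^ m) ^ 2 → H.β d d = 0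

-- deps: HOMC RK FGL THETA EXP RKB
def S_FG : Prop := ∀ (C D : AC) (H : AH C D) (q : ℕ), H.Ok q → C.Pol → D.Pol → H.FG

end Pool.Agent.P.MP_ab3ecb_nt.Cc
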