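import Pool.Agent.P.MP_ab3ecb_nt.Inv.E.Lwb
import Pool.Agent.P.MP_ab3ecb_nt.Inv.E.Lwd
import Pool.Agent.P.MP_ab3ecb_nt.Inv.E.Lwe
import Pool.Agent.P.MP_ab3ecb_nt.Inv.J.Rr

/-! The Stepanov-Bombieri bound for the points of a plane curve that are moved inside a rational
fibre, in any characteristic. -/

namespace Pool.Agent.P.MP_ab3ecb_nt.Cw

open WithZero Polynomial Module
open Pool.Agent.P.MP_6f117a_ag (Place FF Model Reg)
open Pool.Agent.P.MP_ab3ecb_nt.Inv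
open scoped IntermediateField Classical Polynomial.Bivariate

lemma ar1 {d J r κ K F : ℕ} (hJ : d * K < (d + 1) * (J + 1)) (hr : d * κ ≤ r)
    (hF : F ≤ (d + 1) * (K * r + κ) + 1) :
    d * F < (d + 1) * (J + 1) * ((d + 1) * (r + 1)) := by
  have h1 : (d * K + 1) * ((d + 1) * (r + 1)) ≤ (d + 1) * (J + 1) * ((d + 1) * (r + 1)) :=
    Nat.mul_le_mul_right _ hJ
  have h2 : d * F ≤ d * ((d + 1) * (K * r + κ) + 1) := Nat.mul_le_mul_left _ hF
  have h3 : (d + 1) * (d * κ) ≤ (d + 1) * r := Nat.mul_le_mul_left _ hr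
  have h4 : 0 ≤ d * K * (d + 1) := Nat.zero_le _
  nlinarith

lemma ar2 {d n K J q Z R M : ℕ} (hK : (M + 1) * (1 + n * n * n) ≤ K) (hd : d + 1 ≤ n)
    (hJ : (d + 1) * J ≤ d * K) (hR : (d + 1) * R ≤ q)
    (h : Z * K ≤ (R + q * (J + n * d)) * (d + 1)) :
    (M + 1) * Z + M * q ≤ (M + 1) * (d + 1) * q := by
  have h1 : q * ((d + 1) * J) ≤ q * (d * K) := Nat.mul_le_mul_left _ hJ
  have h2 : n * d * (d + 1) ≤ n * n * n :=
    Nat.mul_le_mul (Nat.mul_le_mul_left _ (by omega)) hd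
  have h3 : q * (n * d * (d + 1)) ≤ q * (n * n * n) := Nat.mul_le_mul_left _ h2
  have h4 : Z * K ≤ q * (d * K) + q * (1 + n * n * n) := by nlinarith
  have h5 : q * ((M + 1) * (1 + n * n * n)) ≤ q * K := Nat.mul_le_mul_left _ hK
  have h6 : (M + 1) * (Z * K) ≤ (M + 1) * (q * (d * K) + q * (1 + n * n * n)) :=
    Nat.mul_le_mul_left _ h4
  have h7 : K * ((M + 1) * Z + M * q) ≤ K * ((M + 1) * (d + 1) * q) := by nlinarith
  exact Nat.le_of_mul_le_mul_left h7 (lt_of_lt_of_le (by positivity) hK)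

variable {k E : Type} [Field k] [IsAlgClosed k] [Field E] [Algebra k E]
  (p : ℕ) [Fact p.Prime] [CharP k p]

omit [IsAlgClosed k] in
lemma pow_comb {ι : Type} [Fintype ι] (μ : ℕ) (b : ι → E) (g : ι → k) :
    (∑ i, g i • b i) ^ p ^ μ = ∑ i, (g i ^ p ^ μ) • b i ^ p ^ μ := by
  have : CharP E p := charP_of_injective_algebraMap (algebraMap k E).injective p
  rw [sum_pow_char_pow]
  exact Finset.sum_congr rfl fun i _ => smul_pow _ _ _

lemma li_pow {ι : Type} [Fintype ι] (μ : ℕ) {b : ι → E} (h : LinearIndependent k b) :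
    LinearIndependent k fun i => b i ^ p ^ μ := by
  have hp : 0 < p ^ μ := pow_pos (Fact.out : p.Prime).pos μ
  rw [Fintype.linearIndependent_iff] at h ⊢
  intro g hg i
  choose g' hg' using fun i => IsAlgClosed.exists_pow_nat_eq (g i) hp
  have h1 := pow_comb p μ b g'
  simp only [hg', hg] at h1
  rw [← hg', h g' (pow_eq_zero_iff hp.ne' |>.1 h1) i, zero_pow hp.ne']

theorem bom [FF k E] {Ψ : k[X][Y]} {n : ℕ} {x y : E} (hc : Pc Ψ n x y) (M : ℕ) :
    ∃ e0 : ℕ, ∀ e, e0 ≤ e → ∀ Z : Finset (k × k), (∀ z ∈ Z, z.1 ^ p ^ e = z.1 ∧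
      Ψ.evalEval z.1 z.2 = 0 ∧ Ψ.evalEval z.1 (z.2 ^ p ^ e) = 0 ∧ z.2 ^ p ^ e ≠ z.2) →
    (M + 1) * Z.card + M * p ^ e ≤ (M + 1) * Ψ.natDegree * p ^ e := by
  have hp1 : 1 < p := (Fact.out : p.Prime).one_lt
  have : CharP E p := charP_of_injective_algebraMap (algebraMap k E).injective p
  obtain ⟨d, hd⟩ : ∃ d, Ψ.natDegree = d + 1 := ⟨_, (Nat.succ_pred_eq_of_pos hc.pos).symm⟩
  have hdn : d + 1 ≤ n := hd ▸ hc.le
  obtain ⟨⟨D, hD0, hDd, hDW, hDc⟩, hB2, hB3, -⟩ := p_LWB k E Ψ n x y hc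
  obtain ⟨g, R⟩ := p_RR k E ⟨x, hc.tr⟩
  obtain ⟨μ, hμ⟩ : ∃ μ, μ = (M + 1) * (1 + n * n * n) := ⟨_, rfl⟩
  obtain ⟨K, hK⟩ : ∃ K, K = p ^ μ := ⟨_, rfl⟩
  have hK0 : 0 < K := hK ▸ pow_pos (by omega) μ
  have hμK : μ ≤ K := hK ▸ (Nat.lt_pow_self hp1).le
  obtain ⟨J, hJ1, hJ2⟩ : ∃ J, d * K < (d + 1) * (J + 1) ∧ (d + 1) * J ≤ d * K :=
    ⟨d * K / (d + 1), Nat.lt_mul_div_succ _ d.succ_pos, Nat.mul_div_le _ _⟩
  obtain ⟨κ, hκ⟩ : ∃ κ, κ = K * (n * d) + J + n * (d + 1) + n := ⟨_, rfl⟩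
  obtain ⟨r, hr⟩ : ∃ r, r = d * κ := ⟨_, rfl⟩
  obtain ⟨W, hW⟩ : ∃ W, W = K * (r + n * d) := ⟨_, rfl⟩
  refine ⟨μ + (d + 1) * W, fun e he Z hZ => ?_⟩
  obtain ⟨q, hq⟩ : ∃ q, q = p ^ e := ⟨_, rfl⟩
  have hqW : (d + 1) * W < q := lt_of_le_of_lt (by omega) (hq ▸ Nat.lt_pow_self hp1)
  have hqK : q = p ^ (e - μ) * p ^ μ := by rw [hq, ← pow_add, Nat.sub_add_cancel (by omega)]
  rw [← hq] at hZ ⊢
  rw [hd] at hDd ⊢
  let γ : Fin d → E := fun i => ∑ l ∈ Finset.Icc ((i : ℕ) + 1) (d + 1),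
    y ^ (l - (i + 1)) * aeval x (Ψ.coeff l)
  have hγ : ∀ i, γ i ∈ Wt k n x y (n * (d + 1) + n) := fun i =>
    Submodule.sum_mem _ fun l hl => lwe_mul (by
      have h1 : l - (i + 1) ≤ d + 1 := by have := (Finset.mem_Icc.1 hl).2; omega
      simpa using lwe_mon (k := k) (x := x) (y := y) (a := 0)
        (by simpa using Nat.mul_le_mul_left n h1)) (lwe_pol (hc.coef l))
  let α : Fin (d + 1) × Fin (J + 1) →
      (Fin (d + 1) × Fin (J + 1) → Fin (d + 1) × Fin (r + 1) → k) →ₗ[k] E := fun z =>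
    Fintype.linearCombination k (fun w : Fin (d + 1) × Fin (r + 1) =>
      (x ^ (w.2 : ℕ) * y ^ (w.1 : ℕ)) ^ p ^ μ) ∘ₗ LinearMap.proj z
  have hα : ∀ z c, α z c ∈ Wt k n x y W := fun z c => by
    simp only [α, LinearMap.comp_apply, Fintype.linearCombination_apply]
    refine Submodule.sum_mem _ fun w _ => Submodule.smul_mem _ _ ?_
    rw [mul_pow, ← pow_mul, ← pow_mul, ← hK]
    refine lwe_mon ?_
    have h1 := Nat.lt_succ_iff.1 w.1.2
    have h2 := Nat.lt_succ_iff.1 w.2.2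
    calc (w.2 : ℕ) * K + n * (w.1 * K) ≤ r * K + n * (d * K) := by gcongr
      _ = _ := by rw [hW]; ring
  let U : Fin (d + 1) →
      (Fin (d + 1) × Fin (J + 1) → Fin (d + 1) × Fin (r + 1) → k) →ₗ[k] E := fun i =>
    ∑ j : Fin (J + 1), LinearMap.mulRight k (x ^ (j : ℕ)) ∘ₗ α (i, j)
  have hU : ∀ i c, U i c = ∑ j : Fin (J + 1), α (i, j) c * x ^ (j : ℕ) :=
    fun i c => by simp only [U, LinearMap.sum_apply, LinearMap.comp_apply,
      LinearMap.mulRight_apply]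
  have hUW : ∀ i c, U i c ∈ Wt k n x y (W + J) := by
    intro i c
    rw [hU]
    refine Submodule.sum_mem _ fun j _ => lwe_mul (hα _ c) ?_
    simpa using lwe_mon (k := k) (n := n) (x := x) (y := y) (l := 0) (s := J)
      (by simpa using Nat.lt_succ_iff.1 j.2)
  have := R.fd ((K * r + κ) • D)
  obtain ⟨c, hc0, hcB⟩ := lwe_ker (LS ((K * r + κ) • D))
    (fun i : Fin d => U i.castSucc - LinearMap.mulLeft k (γ i) ∘ₗ U (Fin.last d))
    (fun i c => hDW _ (sub_mem (lwe_mono (by rw [hκ, hW, mul_add K]; omega) (hUW _ c))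
      (lwe_mono (le_of_eq (by rw [hW]; conv_rhs => rw [hκ]
                              ring)) (lwe_mul (hγ _) (hUW _ c))))) (by
      have h1 := R.le ((K * r + κ) • D) (by rw [map_nsmul, hDd]; positivity)
      rw [map_nsmul, hDd, nsmul_eq_mul, mul_comm ((K * r + κ : ℕ) : ℤ)] at h1
      have h2 := ar1 hJ1 hr.ge (F := finrank k (LS ((K * r + κ) • D))) (by exact_mod_cast h1)
      simpa [Module.finrank_pi_fintype] using h2)
  obtain ⟨A, hA⟩ : ∃ A, A = ∑ z : Fin (d + 1) × Fin (J + 1),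
    α z c * (x ^ (z.2 : ℕ) * y ^ (z.1 : ℕ)) ^ q := ⟨_, rfl⟩
  have hA0 : A ≠ 0 := by
    intro h
    have h0 : deg (W • D) < (p ^ e : ℕ) := by
      rw [map_nsmul, hDd, nsmul_eq_mul, mul_comm, ← hq]
      exact_mod_cast hqW
    have h1 := p_LWD p_RR k E p e (W • D) ⟨x, hc.tr⟩ h0 _ (fun z => α z c) _
      (fun z => hDW _ (hα z c)) (lwe_li hc hd (J + 1)) (by rw [← hq, ← hA, h])
    have h3 := li_pow p μ (lwe_li hc hd (r + 1))
    rw [Fintype.linearIndependent_iff] at h3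
    have h4 : ∀ z w, c z w = 0 := fun z => by
      have h2 := h1 z
      simp only [α, LinearMap.comp_apply, Fintype.linearCombination_apply,
        LinearMap.proj_apply] at h2
      exact h3 (c z) h2
    apply hc0
    ext z w
    rw [h4, Pi.zero_apply, Pi.zero_apply]
  have hmq : ∀ z : Fin (d + 1) × Fin (J + 1),
      (x ^ (z.2 : ℕ) * y ^ (z.1 : ℕ)) ^ q ∈ Wt k n x y (q * (J + n * d)) := fun z => by
    rw [mul_pow, ← pow_mul, ← pow_mul]
    refine lwe_mon ?_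
    have h1 := Nat.lt_succ_iff.1 z.1.2
    have h2 := Nat.lt_succ_iff.1 z.2.2
    calc (z.2 : ℕ) * q + n * (z.1 * q) ≤ J * q + n * (d * q) := by gcongr
      _ = _ := by ring
  have hAW : A ∈ Wt k n x y (W + q * (J + n * d)) :=
    hA ▸ Submodule.sum_mem _ fun z _ => lwe_mul (hα z c) (hmq z)
  obtain ⟨B, hB⟩ : ∃ B : E, B ^ K = A := by
    choose c' hc' using fun z w => IsAlgClosed.exists_pow_nat_eq (c z w) (hK ▸ hK0)
    refine ⟨∑ z : Fin (d + 1) × Fin (J + 1), (∑ w : Fin (d + 1) × Fin (r + 1),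
      c' z w • (x ^ (w.2 : ℕ) * y ^ (w.1 : ℕ))) *
        (x ^ (z.2 : ℕ) * y ^ (z.1 : ℕ)) ^ p ^ (e - μ), ?_⟩
    rw [hK, hA, sum_pow_char_pow]
    refine Finset.sum_congr rfl fun z _ => ?_
    rw [mul_pow, pow_comb, ← pow_mul, ← hqK]
    simp only [hc', α, LinearMap.comp_apply, Fintype.linearCombination_apply,
      LinearMap.proj_apply]
  have hord : ∀ z ∈ Z, ∀ P : Place k E, Ctr x y P z.1 z.2 → (K : ℤ) ≤ ord P A := by
    intro z hz P hP
    obtain ⟨h1, h3, h4, h5⟩ := hZ z hz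
    have h6 : P.v A < 1 := by
      rw [hA]
      refine lwe_van hP h1 γ _ (fun i => ?_) (lwe_root (hc.monic.map (evalRingHom z.1))
        ((hc.monic.natDegree_map _).trans hd) ((map_evalRingHom_eval _ _ _).trans h3)
        ((map_evalRingHom_eval _ _ _).trans h4) h5) (fun w => α w c) (fun w => ?_)
        fun i => ?_
      · refine lwe_sum _ fun l _ => lwe_vmul (lwe_pow ⟨le_one_of_sub hP.2, ev_eq hP.2⟩ _) ?_
        have := hB3 z.1 (C (Ψ.coeff l)) _ _ hP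
        rw [aevalAeval_C, evalEval_C] at this
        rw [coeff_map]
        exact this
      · have := mem_LS.1 (hDW _ (hα w c)) P
        rwa [Finsupp.smul_apply, hDc _ _ _ hP, smul_zero, exp_zero] at this
      · have := hcB i
        rwa [LinearMap.sub_apply, LinearMap.comp_apply, LinearMap.mulLeft_apply, hU, hU] at this
    have h7 := (lt_one_iff hA0).1 h6
    rw [← hB, ord_pow] at h7 ⊢
    have h8 : (0 : ℤ) < K := by exact_mod_cast hK0
    have h9 := (mul_pos_iff_of_pos_left h8).1 h7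
    nlinarith
  choose Pl hPl using fun z : Z => hB2 z.1.1 z.1.2 (hZ z z.2).2.1
  have hinj : Function.Injective Pl := fun z z' h => by
    have h1 := hPl z
    have h2 := hPl z'
    rw [← h] at h2
    exact Subtype.ext (Prod.ext ((ev_eq h1.1).symm.trans (ev_eq h2.1))
      ((ev_eq h1.2).symm.trans (ev_eq h2.2)))
  have h1 := lwe_deg ((mem_LS' hA0).1 (hDW _ hAW)) (Finset.univ.image Pl)
  rw [Finset.sum_image hinj.injOn, map_add, deg_dv, zero_add, map_nsmul, hDd, nsmul_eq_mul] at h1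
  have h2 : (Z.card : ℤ) * K ≤ _ := le_trans (by
    rw [← nsmul_eq_mul, ← Fintype.card_coe, ← Finset.card_univ]
    refine Finset.card_nsmul_le_sum _ _ _ fun z _ => ?_
    rw [Finsupp.add_apply, dv_apply, Finsupp.smul_apply, hDc _ _ _ (hPl z), smul_zero, add_zero]
    exact hord z z.2 _ (hPl z)) h1
  exact ar2 (hμ ▸ hμK) hdn hJ2 hqW.le (by exact_mod_cast h2)

end Pool.Agent.P.MP_ab3ecb_nt.Cw
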