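import Pool.Agent.P.MP_ab3ecb_nt.Inv.BaseJ

/-! Separable plane models of a function field in one variable. -/

namespace Pool.Agent.P.MP_ab3ecb_nt.Cw

open WithZero Polynomial Module
open Pool.Agent.P.MP_6f117a_ag (Place FF Model Reg)
open Pool.Agent.P.MP_ab3ecb_nt.Inv
open scoped IntermediateField Classical Polynomial.Bivariate nonZeroDivisors

theorem model {k E : Type} [Field k] [Field E] [Algebra k E] [FF k E] {x : E}
    [IsAlgClosed k] (hx : Transcendental k x) [Algebra.IsSeparable k⟮x⟯ E] {w : E}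
    (hw : Reg k x w) (hw0 : k⟮x⟯⟮w⟯ = ⊤) :
    ∃ (Ψ : k[X][Y]) (n : ℕ), Pc Ψ n x w ∧ aevalAeval x w (derivative Ψ) ≠ 0 := by
  have := FF.fin x hx
  let φ : k[X] →ₐ[k] k⟮x⟯ := aeval (IntermediateField.AdjoinSimple.gen k x)
  let _ : Algebra k[X] k⟮x⟯ := φ.toAlgebra
  let _ : Algebra k[X] E := (aeval x : k[X] →ₐ[k] E).toAlgebra
  have : IsScalarTower k[X] k⟮x⟯ E := .of_algebraMap_eq fun p =>
    aeval_algebraMap_apply E (IntermediateField.AdjoinSimple.gen k x) p
  have : IsFractionRing k[X] k⟮x⟯ := IsLocalization.isLocalization_of_algEquiv k[X]⁰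
    { (RatFunc.algEquivOfTranscendental x hx).toRingEquiv with
      commutes' := RatFunc.algEquivOfTranscendental_algebraMap x hx : RatFunc k ≃ₐ[k[X]] k⟮x⟯ }
  have : Module.IsTorsionFree k[X] E := .trans_faithfulSMul k[X] k⟮x⟯ E
  have he : ∀ (y : E) (G : k[X][Y]), aevalAeval x y G = aeval y G := fun y G => by
    induction G using Polynomial.induction_on' with
    | add p q hp hq => rw [map_add, map_add, hp, hq]
    | monomial i c =>
      rw [← C_mul_X_pow_eq_monomial, map_mul, map_mul, map_pow, map_pow, aevalAeval_C,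
        aevalAeval_Y, aeval_C, aeval_X]
      rfl
  have hc : IsIntegral k[X] w := by
    rwa [PL.reg_iff_integral hx, ← RingEquiv.isIntegral_iff
      (Polynomial.algEquivOfTranscendental k x hx).toRingEquiv (RingHom.ext fun p => by
        change ((Polynomial.algEquivOfTranscendental k x hx p : Algebra.adjoin k {x}) : E) = _
        rw [Polynomial.algEquivOfTranscendental_apply]
        exact (aeval_algebraMap_apply E (⟨x, Algebra.self_mem_adjoin_singleton k x⟩ :
          Algebra.adjoin k {x}) p).symm) w] at hw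
  have hmin : minpoly k⟮x⟯ w = (minpoly k[X] w).map (algebraMap k[X] k⟮x⟯) :=
    minpoly.isIntegrallyClosed_eq_field_fractions' k⟮x⟯ hc
  set Ψ := minpoly k[X] w with hΨ
  refine ⟨Ψ, Ψ.natDegree + Ψ.support.sup fun i => (Ψ.coeff i).natDegree,
    ⟨minpoly.monic hc, minpoly.natDegree_pos hc, Nat.le_add_right _ _, fun i => ?_, hx,
      fun G => ?_, ?_⟩, ?_⟩
  · by_cases hi : i ∈ Ψ.support
    · exact (Finset.le_sup (f := fun i => (Ψ.coeff i).natDegree) hi).trans (Nat.le_add_left _ _)
    · rw [notMem_support_iff.1 hi]; simp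
  · rw [he]
    exact minpoly.isIntegrallyClosed_dvd_iff hc G
  · have h1 : ∀ a : k⟮x⟯, (a : E) ∈ IntermediateField.adjoin k {x, w} := fun a =>
      IntermediateField.adjoin.mono k _ _ (by simp) a.2
    have h2 : w ∈ IntermediateField.adjoin k {x, w} :=
      IntermediateField.subset_adjoin _ _ (by simp)
    refine eq_top_iff.2 fun z _ => ?_
    have h5 : z ∈ k⟮x⟯⟮w⟯ := hw0 ▸ IntermediateField.mem_top
    induction h5 using IntermediateField.adjoin_induction with
    | mem a ha => exact ha ▸ h2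
    | algebraMap a => exact h1 a
    | add a b _ _ ha hb => exact add_mem (ha trivial) (hb trivial)
    | inv a _ ha => exact inv_mem (ha trivial)
    | mul a b _ _ ha hb => exact mul_mem (ha trivial) (hb trivial)
  · have h1 := (Algebra.IsSeparable.isSeparable k⟮x⟯ w).aeval_derivative_ne_zero
      (minpoly.aeval k⟮x⟯ w)
    rwa [hmin, derivative_map, aeval_map_algebraMap, ← he] at h1

/-- A primitive element inside a set that is stable under sums and multiplication by `x`. -/
theorem prim {F E : Type} [Field F] [Field E] [Algebra F E] [FiniteDimensional F E]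
    [Algebra.IsSeparable F E] (x : F) (hx : Function.Injective fun i : ℕ => x ^ i) (S : Set E)
    (h0 : (0 : E) ∈ S) (ha : ∀ a ∈ S, ∀ b ∈ S, a + b ∈ S) (hm : ∀ a ∈ S, x • a ∈ S)
    (ht : IntermediateField.adjoin F S = ⊤) : ∃ y ∈ S, F⟮y⟯ = ⊤ := by
  have := Field.finite_intermediateField_of_exists_primitive_element F E
    (Field.exists_primitive_element F E)
  obtain ⟨y, hy, h1⟩ := Set.Finite.exists_maximalFor' (fun y : E => F⟮y⟯) S (Set.toFinite _)
    ⟨0, h0⟩
  refine ⟨y, hy, eq_top_iff.2 (ht ▸ IntermediateField.adjoin_le_iff.2 fun z hz => ?_)⟩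
  have h2 : ∀ i : ℕ, x ^ i • z ∈ S := fun i => by
    induction i with
    | zero => simpa using hz
    | succ i ih => rw [pow_succ', mul_smul]; exact hm _ ih
  obtain ⟨i, j, hij, e⟩ := Finite.exists_ne_map_eq_of_infinite fun i : ℕ => F⟮y + x ^ i • z⟯
  have h3 : y + x ^ i • z ∈ F⟮y + x ^ i • z⟯ := IntermediateField.mem_adjoin_simple_self _ _
  have h4 : y + x ^ j • z ∈ F⟮y + x ^ i • z⟯ :=
    e ▸ IntermediateField.mem_adjoin_simple_self _ _
  have h5 : z ∈ F⟮y + x ^ i • z⟯ := by
    have h6 := IntermediateField.smul_mem _ (sub_mem h3 h4) (x := (x ^ i - x ^ j)⁻¹)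
    rwa [add_sub_add_left_eq_sub, ← sub_smul, inv_smul_smul₀ (sub_ne_zero.2 (hx.ne hij))] at h6
  have h6 : y ∈ F⟮y + x ^ i • z⟯ := by
    simpa using sub_mem h3 (IntermediateField.smul_mem _ h5 (x := x ^ i))
  exact h1 (ha _ hy _ (h2 i)) (IntermediateField.adjoin_simple_le_iff.2 h6) h5

end Pool.Agent.P.MP_ab3ecb_nt.Cw
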