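import Pool.Agent.P.MP_ab3ecb_nt.Cc.AWb
import Pool.Agent.P.MP_ab3ecb_nt.Cc.AWm
import Pool.Agent.P.MP_ab3ecb_nt.Inv.E.Lw

/-! A lower bound for the number of places fixed by a large power of the Frobenius map. -/

namespace Pool.Agent.P.MP_ab3ecb_nt.Cw

open WithZero Polynomial Module
open Pool.Agent.P.MP_6f117a_ag (Place FF Model Reg)
open Pool.Agent.P.MP_ab3ecb_nt.Inv
open scoped IntermediateField Classical Polynomial.Bivariate

variable {k E : Type} [Field k] [IsAlgClosed k] [Field E] [Algebra k E] [FF k E]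
  {Ψ : k[X][Y]} {n : ℕ} {x y : E}

omit [IsAlgClosed k] [FF k E] in
lemma card_le_deg {T : Dv k E} (h : 0 ≤ T) (S : Finset (Place k E)) (hS : ∀ P ∈ S, 1 ≤ T P) :
    (S.card : ℤ) ≤ deg T := by
  refine le_trans ?_ (lwe_deg h S)
  rw [Finset.card_eq_sum_ones, Nat.cast_sum]
  exact Finset.sum_le_sum fun P hP => by simpa using hS P hP

lemma bad (h : Pc Ψ n x y) (h0 : aevalAeval x y (derivative Ψ) ≠ 0) (S : Finset k)
    (hS : ∀ a ∈ S, ¬ (Ψ.map (evalRingHom a)).Separable) : S.card ≤ (n * n + n) * n := by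
  obtain ⟨⟨D, -, d2, d3, d4⟩, h2, h3, -⟩ := p_LWB k E Ψ n x y h
  have h1 := (mem_LS' h0).1 (d3 _ (lw_wt x y (derivative Ψ)
    ((natDegree_derivative_lt h.pos.ne').le.trans h.le) fun i => by
      rw [coeff_derivative, ← Nat.cast_succ, ← map_natCast C]
      exact (natDegree_mul_C_le _ _).trans (h.coef _)))
  have h4 : ∀ a : S, ∃ P : Place k E, P.v (x - algebraMap k E a) < 1 ∧
      1 ≤ (dv k (aevalAeval x y (derivative Ψ)) + (n * n + n) • D) P := fun a => by
    have h5 := hS a a.2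
    rw [lw_sep] at h5
    push Not at h5
    obtain ⟨b, b1, b2⟩ := h5
    obtain ⟨P, hP⟩ := h2 a b b1
    obtain ⟨h6, h7⟩ := h3 a (derivative Ψ) P b hP
    have h8 := (lt_one_iff h0).1 ((ev_eq_zero_iff h6).1 (h7.trans b2))
    refine ⟨P, hP.1, ?_⟩
    rw [Finsupp.add_apply, dv_apply, Finsupp.smul_apply, d4 P a b hP, smul_zero, add_zero]
    exact h8
  choose P p1 p2 using h4
  have h5 : Function.Injective P := fun a b e =>
    Subtype.ext ((ev_eq (p1 a)).symm.trans (e ▸ ev_eq (p1 b)))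
  have h6 := card_le_deg h1 (Finset.univ.image P) fun Q hQ => by
    obtain ⟨a, -, rfl⟩ := Finset.mem_image.1 hQ
    exact p2 a
  rw [Finset.card_image_of_injective _ h5, Finset.card_univ, Fintype.card_coe, map_add, deg_dv,
    map_nsmul, d2, zero_add, nsmul_eq_mul, ← Nat.cast_mul, Nat.cast_le] at h6
  exact h6.trans (Nat.mul_le_mul_left _ h.le)

lemma root (h : Pc Ψ n x y) {P : Place k E} {a b : k} (hP : Ctr x y P a b) :
    Ψ.evalEval a b = 0 := by
  rw [← ((p_LWB k E Ψ n x y h).2.2.1 a Ψ P b hP).2, (h.ker Ψ).2 dvd_rfl, ev_zero]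

omit [FF k E] in
lemma card_fibre (h : Pc Ψ n x y) {a : k} (ha : (Ψ.map (evalRingHom a)).Separable) :
    (Ψ.map (evalRingHom a)).roots.toFinset.card = Ψ.natDegree := by
  rw [Multiset.toFinset_card_of_nodup (nodup_roots ha), IsAlgClosed.card_roots_eq_natDegree,
    h.monic.natDegree_map]

omit [IsAlgClosed k] [FF k E] in
lemma mem_fibre (h : Pc Ψ n x y) {a b : k} :
    b ∈ (Ψ.map (evalRingHom a)).roots.toFinset ↔ Ψ.evalEval a b = 0 := by
  rw [Multiset.mem_toFinset, mem_roots (h.monic.map _).ne_zero, IsRoot.def, map_evalRingHom_eval]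

lemma uniq (h : Pc Ψ n x y) {a b : k} (ha : (Ψ.map (evalRingHom a)).Separable)
    {P P' : Place k E} (hP : Ctr x y P a b) (hP' : Ctr x y P' a b) : P = P' := by
  obtain ⟨⟨D, -, d2, d3, d4⟩, h2, -, -⟩ := p_LWB k E Ψ n x y h
  have h0 : x - algebraMap k E a ≠ 0 := fun e =>
    h.tr (sub_eq_zero.1 e ▸ isAlgebraic_algebraMap a)
  have h1 : x - algebraMap k E a ∈ Wt k n x y 1 := by
    have e1 := lwe_mon (k := k) (n := n) (x := x) (y := y) (a := 1) (l := 0) (s := 1) (by simp)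
    have e2 := lwe_mon (k := k) (n := n) (x := x) (y := y) (a := 0) (l := 0) (s := 1) (by simp)
    rw [Algebra.algebraMap_eq_smul_one]
    exact sub_mem (by simpa using e1) (Submodule.smul_mem _ _ (by simpa using e2))
  let V := (dv k (x - algebraMap k E a)).support.filter fun Q => Ctr x y Q a (ev Q y)
  have hY : ∀ Q c, Ctr x y Q a c → Q ∈ V := fun Q c hQ => Finset.mem_filter.2
    ⟨Finsupp.mem_support_iff.2 (by rw [dv_apply]; exact ((lt_one_iff h0).1 hQ.1).ne'),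
      by rwa [ev_eq hQ.2]⟩
  have h3 := card_le_deg ((mem_LS' h0).1 (d3 _ h1)) V fun Q hQ => by
    have h4 := (Finset.mem_filter.1 hQ).2
    rw [Finsupp.add_apply, dv_apply, Finsupp.smul_apply, d4 Q _ _ h4, smul_zero, add_zero]
    exact (lt_one_iff h0).1 h4.1
  rw [map_add, deg_dv, one_smul, zero_add, d2, Nat.cast_le, ← card_fibre h ha] at h3
  refine Finset.injOn_of_surjOn_of_card_le (s := V) (fun Q => ev Q y)
    (fun Q hQ => (mem_fibre h).2 (root h (Finset.mem_filter.1 hQ).2)) (fun c hc => ?_) h3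
    (hY _ _ hP) (hY _ _ hP') ((ev_eq hP.2).trans (ev_eq hP'.2).symm)
  obtain ⟨Q, hQ⟩ := h2 a c ((mem_fibre h).1 hc)
  exact ⟨Q, hY _ _ hQ, ev_eq hQ.2⟩

lemma ar3 {M q N G β S Z : ℕ} (h1 : q ≤ G + β) (h2 : G * N = S + Z)
    (h3 : (M + 1 + 1) * Z + (M + 1) * q ≤ (M + 1 + 1) * N * q)
    (h7 : (M + 1) * ((M + 2) * (N * β)) ≤ q) : M * q ≤ (M + 1) * S := by
  have h4 : N * q ≤ S + Z + N * β := by
    have := Nat.mul_le_mul_left N h1
    rw [mul_add, mul_comm N G] at this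
    omega
  have h5 : (M + 2) * (N * q) ≤ (M + 2) * (S + Z + N * β) := Nat.mul_le_mul_left _ h4
  have h6 : (M + 1) * q ≤ (M + 2) * S + (M + 2) * (N * β) := by nlinarith
  refine Nat.le_of_mul_le_mul_left (c := M + 2) ?_ (by omega)
  nlinarith [Nat.mul_le_mul_left (M + 1) h6]

variable (p : ℕ) [Fact p.Prime] [CharP k p]

theorem core (h : Pc Ψ n x y) (h0 : aevalAeval x y (derivative Ψ) ≠ 0) (M : ℕ) :
    ∃ e0 : ℕ, ∀ e, e0 ≤ e → ∀ τ : SA k E, τ.s x = x → τ.s y = y → (∀ c, τ.s0 c = c ^ p ^ e) →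
      ∃ S : Finset (Place k E), (∀ P ∈ S, τ.pl P = P) ∧ M * p ^ e ≤ (M + 1) * S.card := by
  have hp1 : 1 < p := (Fact.out : p.Prime).one_lt
  obtain ⟨e1, h1⟩ := bom p h (M + 1)
  obtain ⟨β, hβ⟩ : ∃ β, β = (n * n + n) * n := ⟨_, rfl⟩
  refine ⟨e1 + 1 + (M + 1) * ((M + 2) * (Ψ.natDegree * β)), fun e he τ hx hy hτ => ?_⟩
  have hZ := h1 e (by omega)
  have hq : e < p ^ e := Nat.lt_pow_self hp1
  have hsep := galois_poly_separable (K := k) p (p ^ e) (dvd_pow_self p (by omega))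
  generalize p ^ e = q at *
  have hq1 : 1 < q := by omega
  let A : Finset k := (X ^ q - X : k[X]).roots.toFinset
  have hA : A.card = q := by
    rw [Multiset.toFinset_card_of_nodup (nodup_roots hsep), IsAlgClosed.card_roots_eq_natDegree,
      FiniteField.X_pow_card_sub_X_natDegree_eq k hq1]
  let G : Finset k := A.filter fun a => (Ψ.map (evalRingHom a)).Separable
  have hG := Finset.card_filter_add_card_filter_not (s := A)
    fun a => (Ψ.map (evalRingHom a)).Separable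
  have hB := bad h h0 (A.filter fun a => ¬ (Ψ.map (evalRingHom a)).Separable)
    fun a ha => (Finset.mem_filter.1 ha).2
  let T : Finset (k × k) := (G.sigma fun a => (Ψ.map (evalRingHom a)).roots.toFinset).map
    (Equiv.sigmaEquivProd k k).toEmbedding
  have hT : ∀ z ∈ T, z.1 ^ q = z.1 ∧ (Ψ.map (evalRingHom z.1)).Separable ∧
      Ψ.evalEval z.1 z.2 = 0 := fun z hz => by
    obtain ⟨⟨a, b⟩, h1, rfl⟩ := Finset.mem_map.1 hz
    obtain ⟨h2, h3⟩ := Finset.mem_sigma.1 h1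
    obtain ⟨h4, h5⟩ := Finset.mem_filter.1 h2
    refine ⟨?_, h5, (mem_fibre h).1 h3⟩
    simpa [sub_eq_zero] using isRoot_of_mem_roots (Multiset.mem_toFinset.1 h4)
  have hTc : T.card = G.card * Ψ.natDegree := by
    rw [Finset.card_map, Finset.card_sigma, Finset.sum_congr rfl (g := fun _ => Ψ.natDegree)
      fun a ha => card_fibre h (Finset.mem_filter.1 ha).2, Finset.sum_const, smul_eq_mul]
  have hS := Finset.card_filter_add_card_filter_not (s := T) fun z => z.2 ^ q = z.2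
  have hτP : ∀ P a b, Ctr x y P a b → Ctr x y (τ.pl P) (a ^ q) (b ^ q) := fun P a b hP => by
    constructor
    · rw [← hτ, ← τ.h, ← hx, ← map_sub, τ.pl_v]; exact hP.1
    · rw [← hτ, ← τ.h, ← hy, ← map_sub, τ.pl_v]; exact hP.2
  have hP := (p_LWB k E Ψ n x y h).2.1
  have hZ' := hZ (T.filter fun z => ¬ z.2 ^ q = z.2) fun z hz => by
    obtain ⟨h1, h2⟩ := Finset.mem_filter.1 hz
    obtain ⟨h3, -, h5⟩ := hT z h1
    obtain ⟨P, hP⟩ := hP _ _ h5
    exact ⟨h3, h5, h3 ▸ root h (hτP P _ _ hP), h2⟩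
  choose Pl hPl using fun z : (T.filter fun z => z.2 ^ q = z.2) =>
    hP z.1.1 z.1.2 (hT z (Finset.mem_filter.1 z.2).1).2.2
  have hinj : Function.Injective Pl := fun z z' e => by
    have h1 := hPl z
    have h2 := hPl z'
    rw [← e] at h2
    exact Subtype.ext (Prod.ext ((ev_eq h1.1).symm.trans (ev_eq h2.1))
      ((ev_eq h1.2).symm.trans (ev_eq h2.2)))
  refine ⟨Finset.univ.image Pl, fun P hP => ?_, ?_⟩
  · obtain ⟨z, -, rfl⟩ := Finset.mem_image.1 hP
    obtain ⟨h1, h2⟩ := Finset.mem_filter.1 z.2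
    obtain ⟨h3, h4, -⟩ := hT z h1
    have h5 := hτP _ _ _ (hPl z)
    rw [h3, h2] at h5
    exact uniq h h4 h5 (hPl z)
  · rw [Finset.card_image_of_injective _ hinj, Finset.card_univ, Fintype.card_coe]
    exact ar3 (G := G.card) (β := β) (by simp only [G]; omega) (hTc.symm.trans hS.symm) hZ'
      (by omega)

end Pool.Agent.P.MP_ab3ecb_nt.Cw
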