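import Pool.Agent.P.MP_ab3ecb_nt.Cc.IfA

/-! Step CYC. -/

namespace Pool.Agent.P.MP_ab3ecb_nt.Cc

open Polynomial

namespace CYCb

lemma fin_ord {F : Type} [Field F] [Finite F] (P : F[X]) (h : P.coeff 0 ≠ 0) :
    ∃ n, 0 < n ∧ P ∣ X ^ n - 1 := by
  have hP : P ≠ 0 := fun e => h (by simp [e])
  have := (AdjoinRoot.powerBasis hP).finite
  have : Finite (AdjoinRoot P) := Module.finite_of_finite F
  have hu : IsUnit (AdjoinRoot.mk P X) := by
    have h1 := congrArg (AdjoinRoot.mk P) (X_mul_divX_add P)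
    rw [AdjoinRoot.mk_self, map_add, map_mul, add_eq_zero_iff_eq_neg] at h1
    exact isUnit_of_mul_isUnit_left (h1 ▸ ((isUnit_C.2 h.isUnit).map (AdjoinRoot.mk P)).neg)
  obtain ⟨n, hn, e⟩ := (isOfFinOrder_iff_isUnit.2 hu).exists_pow_eq_one
  exact ⟨n, hn, AdjoinRoot.mk_eq_zero.1 (by rw [map_sub, map_pow, e, map_one, sub_self])⟩

end CYCb

theorem p_CYC :
    S_CYC := by
  intro R l hl h0
  have := Fact.mk hl
  obtain ⟨n, hn, S, e⟩ := CYCb.fin_ord (R.map (Int.castRingHom (ZMod l)))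
    (by simpa [ZMod.intCast_zmod_eq_zero_iff_dvd] using h0)
  obtain ⟨S, rfl⟩ := map_surjective _ (ZMod.ringHom_surjective (Int.castRingHom (ZMod l))) S
  have h1 : C (l : ℤ) ∣ X ^ n - 1 - R * S := (C_dvd_iff_dvd_coeff _ _).2 fun i => by
    have : (X ^ n - 1 - R * S).map (Int.castRingHom (ZMod l)) = 0 := by simp [e]
    rw [← ZMod.intCast_zmod_eq_zero_iff_dvd, ← eq_intCast (Int.castRingHom (ZMod l)), ← coeff_map,
      this, coeff_zero]
  have h2 : (l : AdjoinRoot R) ∣ AdjoinRoot.mk R (X ^ n) - 1 := by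
    simpa using map_dvd (AdjoinRoot.mk R) h1
  refine ⟨n, hn, fun j => ?_⟩
  obtain ⟨Q, hQ⟩ := dvd_sub_pow_of_dvd_sub h2 j
  obtain ⟨Q, rfl⟩ := AdjoinRoot.mk_surjective Q
  obtain ⟨S', hS⟩ : R ∣ X ^ (n * l ^ j) - 1 - l ^ (j + 1) • Q := AdjoinRoot.mk_eq_zero.1 (by
    rw [map_sub, map_sub, pow_mul, map_pow, map_one, map_nsmul, nsmul_eq_mul, Nat.cast_pow, ← hQ,
      one_pow, sub_self])
  exact ⟨Q, S', by linear_combination hS⟩

end Pool.Agent.P.MP_ab3ecb_nt.Cc
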