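import Pool.Agent.P.MP_ab3ecb_nt.Cc.IfA

/-! Step FG. -/

namespace Pool.Agent.P.MP_ab3ecb_nt.Cc

open Polynomial

theorem p_FG (hHOMC : S_HOMC) (hRK : S_RK) (hFGL : S_FGL) (hTHETA : S_THETA) (hEXP : S_EXP) (hRKB : S_RKB) :
    S_FG := by
  classical
  intro C D H q h pC pD
  obtain ⟨l, n0, l2, lq, h0, fD, fC, hQ⟩ := hEXP C D q h.oC h.oD pC pD
  obtain ⟨θ, -, hθ⟩ := hTHETA C D H q h
  obtain ⟨r, hr⟩ := hHOMC _ _ l fD fC
  obtain ⟨F, b, L, -, hb⟩ := h.lat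
  obtain ⟨n1, -, hZ⟩ := h.oD.big
  have c0 : (0 : ℚ) < 8 * H.c + 1 := by positivity
  refine hFGL _ q F b H.N r L h.N0 (fun u v => ?_)
    (hRK _ q F b l r (n1 + 1) (1 / (8 * H.c + 1)) L l2 (by positivity) fun m hm s hs => ?_)
  · obtain ⟨a, ha, rfl⟩ := AH.π_surj u
    obtain ⟨a', ha', rfl⟩ := AH.π_surj v
    rw [hb]
    exact h.int a ha a' ha'
  obtain ⟨j, rfl⟩ := Nat.exists_eq_add_one_of_ne_zero (show m ≠ 0 by omega)
  obtain ⟨Q, q1, q2⟩ := hQ j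
  have j1 : j < l ^ j := Nat.lt_pow_self l2
  have j2 : l ^ j ≤ n0 * l ^ j := Nat.le_mul_of_pos_left _ h0
  obtain ⟨Z, z1, z2⟩ := hZ (n0 * l ^ j) (by omega)
  choose a ha e using AH.π_surj (H := H)
  have key : ∀ u ∈ s, ∀ v ∈ s, (∀ z, l ^ (j + 1) • z = 0 →
      θ ⟨a u, ha u⟩ z = θ ⟨a v, ha v⟩ z) → u = v := fun u hu v hv hz => by
    have e1 : b (u - v) (u - v) = H.β (a u - a v) (a u - a v) := by
      rw [← hb _ (sub_mem (ha u) (ha v)) _ (sub_mem (ha u) (ha v)), AH.π_sub (ha u) (ha v), e, e]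
    refine sub_eq_zero.1 (L.eq_zero (e1.trans (hRKB C D H q l (j + 1) _ Q θ Z h lq (by omega)
      (by omega) (fun a => hθ a Q) q1 q2 (fun x hx => (z1 x).1 hx) z2
      (⟨a u, ha u⟩ - ⟨a v, ha v⟩) (fun z hz' => ?_) ?_)))
    · rw [map_sub, AddMonoidHom.sub_apply, hz z hz', sub_self]
    · have := hs u hu v hv
      rwa [e1, one_div, le_inv_mul_iff₀ c0] at this
  rw [← Finset.card_image_of_injOn (f := fun u => θ ⟨a u, ha u⟩) fun u hu v hv e' =>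
    key u hu v hv fun z _ => DFunLike.congr_fun e' z]
  refine hr _ _ fun f hf g hg hz => ?_
  obtain ⟨u, hu, rfl⟩ := Finset.mem_image.1 hf
  obtain ⟨v, hv, rfl⟩ := Finset.mem_image.1 hg
  rw [key u hu v hv hz]

end Pool.Agent.P.MP_ab3ecb_nt.Cc
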