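import Pool.Agent.P.MP_ab3ecb_nt.Cc.IfA

/-! Step FGL. -/

namespace Pool.Agent.P.MP_ab3ecb_nt.Cc

open Polynomial

theorem p_FGL :
    S_FGL := by
  intro Λ _ q F b N r h hN hz hr
  classical
  have ex : ∃ n, ∀ s : Finset Λ, LinearIndepOn ℤ id (s : Set Λ) → s.card ≤ n := ⟨r, hr⟩
  obtain ⟨s, hs, hm⟩ : ∃ s : Finset Λ, LinearIndepOn ℤ id (s : Set Λ) ∧
      ∀ t : Finset Λ, LinearIndepOn ℤ id (t : Set Λ) → t.card ≤ s.card := by
    rcases e : Nat.find ex with _ | n
    · exact ⟨∅, by simp, fun t ht => by simpa [e] using Nat.find_spec ex t ht⟩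
    · have := Nat.find_min ex (show n < Nat.find ex by omega)
      push Not at this
      obtain ⟨s, h1, h2⟩ := this
      exact ⟨s, h1, fun t ht => by have := Nat.find_spec ex t ht; omega⟩
  choose z hz using hz
  let φ : Λ →+ (s → ℤ) := AddMonoidHom.mk' (fun a e => z a e) fun a a' => by
    funext e
    have : ((z (a + a') e : ℤ) : ℚ) = (z a e + z a' e : ℤ) := by
      rw [Int.cast_add, ← hz, ← hz, ← hz, map_add, AddMonoidHom.add_apply, mul_add]
    exact_mod_cast this
  refine Module.Finite.of_injective φ.toIntLinearMap ((injective_iff_map_eq_zero φ).2 ?_)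
  intro a ha
  by_contra h0
  have h1 : ∀ e ∈ s, b a e = 0 := fun e he => by
    have e1 : z a e = 0 := congrFun ha ⟨e, he⟩
    have e2 := hz a e
    rw [e1, Int.cast_zero] at e2
    exact (mul_eq_zero.1 e2).resolve_left (by exact_mod_cast hN.ne')
  have h2 : ∀ x ∈ Submodule.span ℤ (s : Set Λ), b a x = 0 := fun x hx =>
    (Submodule.span_le (p := LinearMap.ker (b a).toIntLinearMap)).2 (fun e he => h1 e he) hx
  have h3 := (h.pos a h0).ne'
  have h4 : a ∉ s := fun k => h3 (h1 a k)
  have h5 := hm (insert a s) (by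
    rw [Finset.coe_insert]
    refine hs.id_insert' fun t ht => ?_
    have := h2 _ ht
    rw [map_zsmul, zsmul_eq_mul] at this
    exact_mod_cast (mul_eq_zero.1 this).resolve_right h3)
  rw [Finset.card_insert_of_notMem h4] at h5
  omega

end Pool.Agent.P.MP_ab3ecb_nt.Cc
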