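import Pool.Agent.P.MP_ab3ecb_nt.Cc.IfA

/-! Step FIT. -/

namespace Pool.Agent.P.MP_ab3ecb_nt.Cc

open Polynomial

theorem p_FIT :
    S_FIT := by
  intro Λ _ _ q F b h t m ht hm
  let N : Submodule ℤ Λ := LinearMap.range ((t : ℤ) • LinearMap.id)
  have hN : ∀ a, N.mkQ a = 0 ↔ ∃ u, t • u = a := fun a => by simp [N]
  have hz : ∀ x : Λ ⧸ N, t • x = 0 := fun x => by
    obtain ⟨a, rfl⟩ := N.mkQ_surjective x
    rw [← map_nsmul, hN]
    exact ⟨a, rfl⟩
  have : Finite (Λ ⧸ N) := Module.finite_of_fg_torsion _ fun x =>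
    ⟨⟨t, mem_nonZeroDivisors_of_ne_zero (by omega)⟩, by simpa using hz x⟩
  let Fb : Module.End ℤ (Λ ⧸ N) := N.mapQ N F (by
    rintro - ⟨a, rfl⟩
    exact ⟨F a, by simp⟩)
  have hF : ∀ (n : ℕ) a, N.mkQ ((F ^ n) a) = (Fb ^ n) (N.mkQ a) :=
    map_pow_end N.mkQ.toAddMonoidHom fun a => rfl
  obtain ⟨u0, h0, hu⟩ : ∃ u0, 0 < u0 ∧ ∀ (x : Λ ⧸ N) n, 0 < n → (Fb ^ n) x = x →
      ∀ c, (Fb ^ (u0 * c)) x = x := by
    have := Fintype.ofFinite (Λ ⧸ N)
    refine ⟨(Fintype.card (Λ ⧸ N)).factorial, Nat.factorial_pos _, fun x n hn e c => ?_⟩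
    rw [Module.End.pow_apply] at e ⊢
    exact (Function.isPeriodicPt_minimalPeriod Fb x).trans_dvd ((Nat.dvd_factorial
      (Function.IsPeriodicPt.minimalPeriod_pos hn e) Function.minimalPeriod_le_card).mul_right c)
  refine ⟨m * (u0 * t), by positivity, dvd_mul_right _ _, ?_⟩
  rintro - ⟨s, rfl⟩ g l e
  have tf : ∀ a : Λ, t • a = 0 → a = 0 := fun a e =>
    h.tf (n := t) (by omega) (by rwa [natCast_zsmul])
  rcases s.eq_zero_or_pos with rfl | hs
  · exact ⟨0, by simpa using tf g (by simpa using e)⟩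
  have hp := hu (N.mkQ l) (m * (u0 * t) * s) (by positivity) (by
    rw [← hF, ← sub_eq_zero, ← map_sub, hN]; exact ⟨g, e⟩)
  have h1 : ∀ c, N.mkQ ((∑ i ∈ Finset.range (u0 * c), (F ^ m) ^ i) l) =
      c • N.mkQ ((∑ i ∈ Finset.range u0, (F ^ m) ^ i) l) := fun c => by
    induction c with
    | zero => simp
    | succ c ih =>
      rw [Nat.mul_succ, Finset.sum_range_add, LinearMap.add_apply, map_add, ih, succ_nsmul]
      simp only [LinearMap.sum_apply, map_sum, ← pow_mul, hF]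
      refine congrArg _ (Finset.sum_congr rfl fun i _ => ?_)
      rw [show m * (u0 * c + i) = m * i + u0 * (m * c) by ring, pow_add, Module.End.mul_apply, hp]
  obtain ⟨u, hu⟩ := (hN _).1 ((h1 (t * s)).trans (by rw [mul_smul, hz]))
  refine ⟨u, sub_eq_zero.1 (tf _ ?_)⟩
  have h2 := LinearMap.congr_fun (mul_geom_sum (F ^ m) (u0 * (t * s))) l
  rw [Module.End.mul_apply, ← hu, ← pow_mul, show m * (u0 * (t * s)) = m * (u0 * t) * s by ring]
    at h2
  simp only [LinearMap.sub_apply, Module.End.one_apply, map_nsmul] at h2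
  rw [smul_sub, e, h2, sub_self]

end Pool.Agent.P.MP_ab3ecb_nt.Cc
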