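import Pool.Agent.P.MP_ab3ecb_nt.Cc.IfA

/-! Step GER. -/

namespace Pool.Agent.P.MP_ab3ecb_nt.Cc

open Polynomial

namespace GERb

lemma gen0 (V : Type) [AddCommGroup V] [Finite V] (p : ℕ) [Fact p.Prime] [Module (ZMod p) V] :
    ∃ (d : ℕ) (b : Fin d → V), Nat.card V = p ^ d ∧
      ∀ x, ∃ c : Fin d → ℤ, x = ∑ i, c i • b i := by
  have : Module.Finite (ZMod p) V := Module.Finite.of_finite
  let b := Module.finBasis (ZMod p) V
  refine ⟨_, b, ?_, fun x => ⟨fun i => ((b.repr x i).val : ℤ), ?_⟩⟩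
  · rw [Module.natCard_eq_pow_finrank (K := ZMod p) (V := V), Nat.card_zmod]
  · conv_lhs => rw [← b.sum_repr x]
    refine Finset.sum_congr rfl fun i _ => ?_
    rw [natCast_zsmul, ← Nat.cast_smul_eq_nsmul (ZMod p), ZMod.natCast_zmod_val]

lemma gen (A : Type) [AddCommGroup A] [Finite A] (p : ℕ) [Fact p.Prime] :
    ∃ (d : ℕ) (a : Fin d → A),
      Nat.card A = p ^ d * Nat.card (nsmulAddMonoidHom (α := A) p).range ∧
      ∀ x, ∃ (c : Fin d → ℤ) (y : A), x = ∑ i, c i • a i + p • y := by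
  let B : AddSubgroup A := (nsmulAddMonoidHom (α := A) p).range
  obtain ⟨d, b, hb, hs⟩ := @gen0 (A ⧸ B) _ _ p _ (QuotientAddGroup.zmodModule fun x => ⟨x, rfl⟩)
  choose a ha using fun i => QuotientAddGroup.mk_surjective (b i)
  refine ⟨d, a, ?_, fun x => ?_⟩
  · rw [AddSubgroup.card_eq_card_quotient_mul_card_addSubgroup B, hb]
  · obtain ⟨c, hc⟩ := hs x
    have h1 : (x : A ⧸ B) = ((∑ i, c i • a i : A) : A ⧸ B) := by
      rw [hc, QuotientAddGroup.mk_sum]
      exact Finset.sum_congr rfl fun i _ => by rw [QuotientAddGroup.mk_zsmul, ha]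
    obtain ⟨y, hy⟩ := QuotientAddGroup.eq_iff_sub_mem.1 h1
    refine ⟨c, y, ?_⟩
    rw [nsmulAddMonoidHom_apply] at hy
    rw [hy]; abel

lemma gen_pow {A : Type} [AddCommGroup A] {p d : ℕ} {a : Fin d → A}
    (h : ∀ x, ∃ (c : Fin d → ℤ) (y : A), x = ∑ i, c i • a i + p • y) (N : ℕ) (x : A) :
    ∃ (c : Fin d → ℤ) (y : A), x = ∑ i, c i • a i + p ^ N • y := by
  induction N with
  | zero => exact ⟨0, x, by simp⟩
  | succ N ih =>
    obtain ⟨c, y, e⟩ := ih
    obtain ⟨c', y', e'⟩ := h y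
    refine ⟨fun i => c i + (p ^ N : ℕ) * c' i, y', ?_⟩
    rw [e, e', smul_add, pow_succ, mul_smul, Finset.smul_sum, ← add_assoc, ← Finset.sum_add_distrib]
    refine congrArg (· + _) (Finset.sum_congr rfl fun i _ => ?_)
    rw [add_smul, mul_smul, natCast_zsmul]

lemma ch {A : Type} [AddCommGroup A] (F : Module.End ℤ A) {d : ℕ} (v : Fin d → A)
    (h : ∀ i, ∃ c : Fin d → ℤ, F (v i) = ∑ j, c j • v j) :
    ∃ χ : ℤ[X], χ.Monic ∧ χ.natDegree = d ∧
      ∀ c : Fin d → ℤ, aeval F χ (∑ j, c j • v j) = 0 := by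
  choose g hg using h
  let φ : (Fin d → ℤ) →ₗ[ℤ] A := Fintype.linearCombination ℤ v
  let G : Module.End ℤ (Fin d → ℤ) := Fintype.linearCombination ℤ g
  have hφ : ∀ c, φ c = ∑ j, c j • v j := fun c => Fintype.linearCombination_apply _ _ _
  have key : ∀ c, φ.toAddMonoidHom (G c) = F (φ.toAddMonoidHom c) := fun c => by
    show φ (G c) = F (φ c)
    rw [hφ c, map_sum, show G c = ∑ i, c i • g i from Fintype.linearCombination_apply _ _ _, map_sum]
    exact Finset.sum_congr rfl fun i _ => by rw [map_smul, map_smul, hφ, hg]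
  refine ⟨G.charpoly, G.charpoly_monic, by rw [LinearMap.charpoly_natDegree]; simp, fun c => ?_⟩
  have := map_aeval φ.toAddMonoidHom key G.charpoly c
  rw [LinearMap.aeval_self_charpoly] at this
  rw [← hφ]
  simpa using this.symm

lemma main (n : ℕ) : ∀ (A : Type) [AddCommGroup A] [Finite A] (F : Module.End ℤ A),
    Nat.card A = n → Nat.card (aeval (R := ℤ) F).range ≤ n := by
  induction n using Nat.strong_induction_on with
  | _ n ih =>
  intro A _ _ F hn
  have : Finite (Module.End ℤ A) := DFunLike.finite _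
  rcases subsingleton_or_nontrivial A with hA | hA
  · have : Subsingleton (Module.End ℤ A) := inferInstance
    rw [← hn, Nat.card_of_subsingleton (0 : A), Nat.card_of_subsingleton 0]
  obtain ⟨x0, hx0⟩ := exists_ne (0 : A)
  obtain ⟨p, hp, hpx⟩ := Nat.exists_prime_and_dvd
    (show addOrderOf x0 ≠ 1 from fun e => hx0 (AddMonoid.addOrderOf_eq_one_iff.1 e))
  have := Fact.mk hp
  obtain ⟨d, a, hc, hg⟩ := gen A p
  obtain ⟨N, u, hu, hN⟩ := Nat.exists_eq_pow_mul_and_not_dvd (Nat.card_pos (α := A)).ne' p hp.ne_one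
  have hux : ∀ x : A, ∃ c : Fin d → ℤ, u • x = ∑ j, c j • (u • a j) := fun x => by
    obtain ⟨c, y, e⟩ := gen_pow hg N x
    refine ⟨c, ?_⟩
    rw [e, smul_add, ← mul_smul, mul_comm, ← hN, card_nsmul_eq_zero', add_zero, Finset.smul_sum]
    exact Finset.sum_congr rfl fun i _ => smul_comm _ _ _
  have hd : 0 < d := by
    by_contra h0
    obtain rfl : d = 0 := by omega
    obtain ⟨c, e⟩ := hux x0
    exact hu (hpx.trans (addOrderOf_dvd_of_nsmul_eq_zero (by simpa using e)))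
  obtain ⟨χ, hm, hdeg, hχ⟩ := ch F (fun j => u • a j) fun i => by
    obtain ⟨c, e⟩ := hux (F (a i))
    exact ⟨c, by rw [map_nsmul, e]⟩
  have hχ' : ∀ x, u • aeval F χ x = 0 := fun x => by
    obtain ⟨c, e⟩ := hux x
    rw [← map_nsmul, e, hχ]
  obtain ⟨β, α, hβ⟩ : IsCoprime (p : ℤ) u :=
    Nat.isCoprime_iff_coprime.2 ((Nat.Prime.coprime_iff_not_dvd hp).2 hu)
  let B : AddSubgroup A := (nsmulAddMonoidHom (α := A) p).range
  have hB : ∀ x ∈ B, F x ∈ B := fun x ⟨y, e⟩ => ⟨F y, by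
    rw [← e, nsmulAddMonoidHom_apply, nsmulAddMonoidHom_apply, map_nsmul]⟩
  let F' : Module.End ℤ B :=
    ((F.toAddMonoidHom.comp B.subtype).codRestrict B fun x => hB _ x.2).toIntLinearMap
  have hF' : ∀ (g : ℤ[X]) (x : B), ((aeval F' g x : B) : A) = aeval F g x := fun g x =>
    map_aeval (F := F') (G := F) B.subtype (fun _ => rfl) g x
  have hlt : Nat.card B < n := by
    have h1 : 1 < p ^ d := Nat.one_lt_pow hd.ne' hp.one_lt
    have h2 : 0 < Nat.card B := Nat.card_pos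
    rw [← hn, hc]
    nlinarith
  have hI := ih _ hlt B F' rfl
  have : Finite (Module.End ℤ B) := DFunLike.finite _
  choose σ hσ using fun r : (aeval (R := ℤ) F').range => r.2
  let Ψ : (Fin d → ZMod p) × (aeval (R := ℤ) F').range → (aeval (R := ℤ) F).range := fun z =>
    ⟨aeval F (∑ i, ((z.1 i).val : ℤ) • (X : ℤ[X]) ^ (i : ℕ) + p • σ z.2), _, rfl⟩
  have hΨ : Function.Surjective Ψ := by
    rintro ⟨_, g, rfl⟩
    have hr : (g %ₘ χ).natDegree < d := hdeg ▸ natDegree_modByMonic_lt g hm fun e => by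
      rw [e, natDegree_one] at hdeg; omega
    let h : ℤ[X] := ∑ i : Fin d, ((g %ₘ χ).coeff i / p) • (X : ℤ[X]) ^ (i : ℕ) + β • (χ * (g /ₘ χ))
    refine ⟨(fun i => ((g %ₘ χ).coeff i : ZMod p), ⟨aeval F' h, h, rfl⟩), Subtype.ext ?_⟩
    refine LinearMap.ext fun x => ?_
    have e1 : p • aeval F (σ ⟨aeval F' h, h, rfl⟩) x = p • aeval F h x := by
      have e2 : aeval F' (σ ⟨aeval F' h, h, rfl⟩) = aeval F' h := hσ _
      have e3 := hF' (σ ⟨aeval F' h, h, rfl⟩) ⟨p • x, x, rfl⟩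
      rw [e2, hF' h] at e3
      simpa using e3.symm
    have e4 : aeval F (χ * (g /ₘ χ)) x = p • β • aeval F (χ * (g /ₘ χ)) x := by
      have e5 : u • aeval F (χ * (g /ₘ χ)) x = 0 := by
        rw [map_mul, Module.End.mul_apply, hχ']
      rw [← natCast_zsmul] at e5 ⊢
      rw [← mul_smul, show (p : ℤ) * β = 1 - α * u by linarith, sub_smul, mul_smul, e5]
      simp
    show aeval F (∑ i : Fin d, ((((g %ₘ χ).coeff i : ℤ) : ZMod p).val : ℤ) • (X : ℤ[X]) ^ (i : ℕ) +
      p • σ ⟨aeval F' h, h, rfl⟩) x = aeval F g x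
    conv_rhs => rw [← modByMonic_add_div g χ, map_add, LinearMap.add_apply, e4,
      aeval_eq_sum_range' hr, Finset.sum_range]
    rw [map_add, map_nsmul, LinearMap.add_apply, LinearMap.smul_apply, e1]
    simp only [h, map_add, map_sum, map_zsmul, map_pow, aeval_X, LinearMap.add_apply,
      LinearMap.smul_apply, LinearMap.sum_apply, smul_add, Finset.smul_sum]
    rw [← add_assoc, ← Finset.sum_add_distrib]
    refine congrArg (· + _) (Finset.sum_congr rfl fun i _ => ?_)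
    rw [ZMod.val_intCast, ← natCast_zsmul, ← mul_smul, ← add_smul, Int.emod_add_mul_ediv]
  have := Nat.card_le_card_of_surjective Ψ hΨ
  rw [Nat.card_prod, Nat.card_fun, Nat.card_zmod, Nat.card_eq_fintype_card (α := Fin d),
    Fintype.card_fin] at this
  rw [← hn, hc]
  exact this.trans (Nat.mul_le_mul_left _ hI)

end GERb

theorem p_GER :
    S_GER := fun A _ _ F => GERb.main _ A F rfl

end Pool.Agent.P.MP_ab3ecb_nt.Cc
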