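import Pool.Agent.P.MP_ab3ecb_nt.Cc.IfA

/-! Step HOMC. -/

namespace Pool.Agent.P.MP_ab3ecb_nt.Cc

open Polynomial

namespace HOMCb

open Classical in
/-- A class of homomorphisms agreeing on the `l ^ m`-torsion and separated by the
`l ^ (m+1)`-torsion is small. -/
theorem fibre {A A' : Type} [AddCommGroup A] [AddCommGroup A'] (l m : ℕ)
    (hT : {a : A | l • a = 0}.Finite) (hT' : {a : A' | l • a = 0}.Finite)
    (t : Finset (A →+ A'))
    (hag : ∀ u ∈ t, ∀ v ∈ t, ∀ a, l ^ m • a = 0 → u a = v a)
    (hsep : ∀ u ∈ t, ∀ v ∈ t, (∀ a, l ^ (m + 1) • a = 0 → u a = v a) → u = v) :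
    t.card ≤ hT'.toFinset.card ^ hT.toFinset.card := by
  rcases t.eq_empty_or_nonempty with rfl | ⟨u0, hu0⟩
  · simp
  let φ : (A →+ A') → (hT.toFinset → A') := fun u x =>
    if h : ∃ a, l ^ m • a = (x : A) then u h.choose - u0 h.choose else 0
  have hcard : (Fintype.piFinset (fun _ : hT.toFinset => hT'.toFinset)).card
      = hT'.toFinset.card ^ hT.toFinset.card := by
    rw [Fintype.card_piFinset]
    simp
  rw [← hcard]
  refine Finset.card_le_card_of_injOn φ ?_ ?_
  · intro u hu
    have hu' : u ∈ t := hu
    simp only [Finset.mem_coe, Fintype.mem_piFinset, Set.Finite.mem_toFinset, Set.mem_ofPred_eq]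
    intro x
    have hx : l • (x : A) = 0 := hT.mem_toFinset.1 x.2
    simp only [φ]
    split_ifs with h
    · have h1 : l ^ m • (l • h.choose) = 0 := by
        rw [smul_comm, h.choose_spec, hx]
      have h2 := hag u hu' u0 hu0 _ h1
      rw [smul_sub, ← map_nsmul, ← map_nsmul, h2, sub_self]
    · simp
  · intro u hu v hv huv
    have hu' : u ∈ t := hu
    have hv' : v ∈ t := hv
    refine hsep u hu' v hv' ?_
    intro a ha
    have hx : l ^ m • a ∈ hT.toFinset := by
      simp only [Set.Finite.mem_toFinset, Set.mem_ofPred_eq]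
      rw [smul_smul, ← pow_succ', ha]
    have h : ∃ b, l ^ m • b = ((⟨l ^ m • a, hx⟩ : hT.toFinset) : A) := ⟨a, rfl⟩
    have h1 := congrFun huv ⟨l ^ m • a, hx⟩
    simp only [φ, dif_pos h] at h1
    have h2 : u h.choose = v h.choose := sub_left_injective h1
    have h3 : l ^ m • (a - h.choose) = 0 := by
      rw [smul_sub, h.choose_spec, sub_self]
    have h4 := hag u hu' v hv' _ h3
    rw [map_sub, map_sub, h2] at h4
    exact sub_left_injective h4

end HOMCb

theorem p_HOMC :
    S_HOMC := by
  classical
  intro A A' _ _ l hT hT'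
  refine ⟨hT'.toFinset.card ^ hT.toFinset.card, ?_⟩
  intro m
  induction m with
  | zero =>
    intro s hs
    rw [pow_zero, Finset.card_le_one]
    intro u hu v hv
    refine hs u hu v hv ?_
    intro a ha
    rw [pow_zero, one_smul] at ha
    rw [ha, map_zero, map_zero]
  | succ m ih =>
    intro s hs
    let f : (A →+ A') → (A → A') := fun u a => if l ^ m • a = 0 then u a else 0
    have hf : ∀ u v : A →+ A', f u = f v ↔ ∀ a, l ^ m • a = 0 → u a = v a := by
      intro u v
      constructor
      · intro h a ha
        have := congrFun h a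
        simpa only [f, if_pos ha] using this
      · intro h
        funext a
        simp only [f]
        split_ifs with ha
        · exact h a ha
        · rfl
    have h1 : s.card ≤ (hT'.toFinset.card ^ hT.toFinset.card) * (s.image f).card := by
      refine Finset.card_le_mul_card_image s _ ?_
      intro b _
      refine HOMCb.fibre l m hT hT' _ ?_ ?_
      · intro u hu v hv
        rw [Finset.mem_filter] at hu hv
        exact (hf u v).1 (hu.2.trans hv.2.symm)
      · intro u hu v hv
        rw [Finset.mem_filter] at hu hv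
        exact hs u hu.1 v hv.1
    obtain ⟨t, _, hinj, himg⟩ := Finset.exists_subset_injOn_image_eq_of_surjOn
      (f := f) (s : Set (A →+ A')) (s.image f) (by
        intro b hb
        simpa using hb)
    have h2 : (s.image f).card ≤ (hT'.toFinset.card ^ hT.toFinset.card) ^ m := by
      rw [← himg, Finset.card_image_of_injOn hinj]
      refine ih t ?_
      intro u hu v hv h
      exact hinj hu hv ((hf u v).2 h)
    rw [pow_succ']
    exact h1.trans (Nat.mul_le_mul_left _ h2)

end Pool.Agent.P.MP_ab3ecb_nt.Cc
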