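import Pool.Agent.P.MP_ab3ecb_nt.Cc.IfA

/-! Step MAIN. -/

namespace Pool.Agent.P.MP_ab3ecb_nt.Cc

open Polynomial

theorem p_MAIN (hCOL : S_COL) (hUPG : S_UPG) (hMAINA : S_MAINA) (hMAINB : S_MAINB) :
    S_MAIN := by
  classical
  intro C D H q ψ h hfg h2 ht hs S
  have hc := hCOL C D H q h hfg
  have hu := hUPG C D H q h hfg hc
  by_cases hf : (Set.range ψ).Finite
  · exact hMAINA C D H q ψ h hu h2 hs hf S
  obtain ⟨r, hr⟩ := hMAINB C D H q ψ h hc hu h2 ht hs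
  obtain ⟨t, ht1, ht2⟩ := Set.Infinite.exists_subset_card_eq hf (r + 1)
  have hx : ∀ y : t, ∃ x, ψ x = y := fun y => ht1 y.2
  choose g hg using hx
  obtain ⟨m, h0, hm⟩ := h.oD.per_fin (S ∪ Finset.univ.image g)
  rcases hr m h0 with ⟨f, e⟩ | e
  · exact ⟨f, fun x hx => e x (hm x (Finset.mem_union_left _ hx))⟩
  · have h3 : (t : Set C.X) ⊆ ψ '' D.T m := fun y hy =>
      ⟨g ⟨y, hy⟩, hm _ (Finset.mem_union_right _ (Finset.mem_image_of_mem _ (Finset.mem_univ _))),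
        hg _⟩
    have h4 := Set.ncard_le_ncard h3 ((h.oD.fin m h0).image ψ)
    rw [Set.ncard_coe_finset, ht2] at h4
    omega

end Pool.Agent.P.MP_ab3ecb_nt.Cc
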