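import Pool.Agent.P.MP_ab3ecb_nt.Cc.IfA

/-! Step MAINA. -/

namespace Pool.Agent.P.MP_ab3ecb_nt.Cc

open Polynomial

namespace MAINAb

theorem pigeon {α β : Type} [DecidableEq β] (Z : Finset α) (Y : Finset β) (ψ : α → β)
    (hY : ∀ x, ψ x ∈ Y) (hne : Y.Nonempty) :
    ∃ y, (Z.card : ℚ) ≤ Y.card * (Z.filter fun x => ψ x = y).card := by
  obtain ⟨y, -, hy⟩ := Finset.exists_max_image Y (fun y => (Z.filter fun x => ψ x = y).card) hne
  refine ⟨y, ?_⟩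
  have h1 : Z.card = ∑ y ∈ Y, (Z.filter fun x => ψ x = y).card :=
    Finset.card_eq_sum_card_fiberwise fun x _ => hY x
  have h2 := Finset.sum_le_card_nsmul Y _ _ hy
  rw [← h1, smul_eq_mul] at h2
  exact_mod_cast h2

end MAINAb

theorem p_MAINA :
    S_MAINA := by
  classical
  intro C D H q ψ h hU hG hS hfin S
  obtain ⟨x0⟩ := h.oD.nonempty
  obtain ⟨m, hm0, hm⟩ := h.oD.per_fin (insert x0 S)
  set Y := hfin.toFinset with hYd
  have hY : ∀ x, ψ x ∈ Y := fun x => by simp [hYd]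
  have hne : Y.Nonempty := ⟨_, hY x0⟩
  have hc : (0 : ℚ) < Y.card := by exact_mod_cast hne.card_pos
  obtain ⟨n1, h1, hmn, hup⟩ := hU m (1 / (2 * Y.card)) hm0 (by positivity)
  obtain ⟨n0, h0, hbig⟩ := h.oD.big
  obtain ⟨Z, hZ, hZc⟩ := hbig (n1 * n0) (Nat.le_mul_of_pos_left _ h1)
  obtain ⟨φ, hφ, hφ'⟩ := hS Z
  obtain ⟨y, hy⟩ := MAINAb.pigeon Z Y ψ hY hne
  obtain ⟨γ, hγ⟩ := hup (n1 * n0) (Nat.mul_pos h1 h0) (Dvd.intro _ rfl) φ hφ (C.cl y)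
    (Z.filter fun x => ψ x = y)
    (fun x hx => by
      obtain ⟨a, b⟩ := Finset.mem_filter.1 hx
      exact ⟨(hZ x).1 a, by rw [hφ' x a, b]⟩)
    (by
      rw [div_mul_eq_mul_div, one_mul, div_le_iff₀ (by positivity)]
      nlinarith)
  have key : ∀ x ∈ D.T m, ψ x = ψ x0 := fun x hx => by
    have d : m ∣ n1 * n0 := hmn.mul_right _
    have hx0 := hm x0 (by simp)
    apply hG.inj
    rw [← hφ' x ((hZ x).2 (AC.T_dvd hx d)), ← hφ' x0 ((hZ x0).2 (AC.T_dvd hx0 d)), hγ x hx,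
      hγ x0 hx0]
  obtain ⟨f, hf⟩ := h.mex (ψ x0) (by
    rw [← h.sv_f hG.inj hS x0]
    exact key _ (AC.T_f (hm x0 (by simp))))
  exact ⟨f, fun x hx => by rw [hf, key x (hm x (by simp [hx]))]⟩

end Pool.Agent.P.MP_ab3ecb_nt.Cc
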