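import Pool.Agent.P.MP_ab3ecb_nt.Cc.IfA

/-! Step MAINB. -/

namespace Pool.Agent.P.MP_ab3ecb_nt.Cc

open Polynomial

namespace MAINBb

lemma per {C : AC} {q i j N : ℕ} (h : C.Ok q) (hij : i ≠ j) (hi : i ≤ N) (hj : j ≤ N) {y : C.X}
    (e : C.f^[i] y = C.f^[j] y) : y ∈ C.T N.factorial := by
  wlog hl : i < j generalizing i j
  · exact this hij.symm hj hi e.symm (by omega)
  obtain ⟨d, rfl⟩ := Nat.exists_eq_add_of_le hl.le
  rw [Function.iterate_add_apply] at e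
  exact AC.T_dvd (m := d) (h.f_inj.iterate i e).symm (Nat.dvd_factorial (by omega) (by omega))

variable {C D : AC} {H : AH C D} {q : ℕ}

lemma rest (h : H.Ok q) {a b : H.P} (ha : a ∈ H.M) (hb : b ∈ H.M) (h1 : a ≠ 0) (h2 : b ≠ 0)
    (h3 : a + b ≠ 0) (Z : Finset D.X) : ∃ Z' ⊆ Z, (∀ x ∈ Z', H.sp x a ≠ 0 ∧ H.sp x b ≠ 0 ∧
      H.sp x (a + b) ≠ 0) ∧ (Z.card : ℚ) ≤ Z'.card + 3 * H.c * (H.β a a + H.β b b) := by
  classical
  have k : ∀ a ∈ H.M, a ≠ 0 → ((Z.filter fun x => H.sp x a = 0).card : ℚ) ≤ H.c * H.β a a :=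
    fun a ha h0 => h.zero a (h.le ha) h0 _ fun x hx => (Finset.mem_filter.1 hx).2
  refine ⟨Z.filter fun x => H.sp x a ≠ 0 ∧ H.sp x b ≠ 0 ∧ H.sp x (a + b) ≠ 0,
    Finset.filter_subset _ _, fun x hx => (Finset.mem_filter.1 hx).2, ?_⟩
  have h4 : Z ⊆ (Z.filter fun x => H.sp x a ≠ 0 ∧ H.sp x b ≠ 0 ∧ H.sp x (a + b) ≠ 0) ∪
      ((Z.filter fun x => H.sp x a = 0) ∪ ((Z.filter fun x => H.sp x b = 0) ∪
        Z.filter fun x => H.sp x (a + b) = 0)) := fun x hx => by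
    simp only [Finset.mem_union, Finset.mem_filter]
    tauto
  have h5 := (Finset.card_le_card h4).trans ((Finset.card_union_le _ _).trans
    (Nat.add_le_add_left ((Finset.card_union_le _ _).trans
      (Nat.add_le_add_left (Finset.card_union_le _ _) _)) _))
  have h6 := (Nat.cast_le (α := ℚ)).2 h5
  push_cast at h6
  have h7 := mul_le_mul_of_nonneg_left (form_add_le h.symm h.psd a b) (Nat.cast_nonneg H.c)
  linarith [k a ha h1, k b hb h2, k _ (add_mem ha hb) h3]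

end MAINBb

open MAINBb in
theorem p_MAINB :
    S_MAINB := by
  intro C D H q ψ h hc hu hg ht hψ
  classical
  have hc0 : (0 : ℚ) ≤ H.c := Nat.cast_nonneg _
  obtain ⟨s, hs⟩ := hc (1 / (24 * H.c + 1)) (by positivity)
  refine ⟨max (C.T (2 * s).factorial).ncard 2, fun m hm => ?_⟩
  obtain ⟨n1, h1, hm1, hU⟩ := hu m (1 / 4) hm (by norm_num)
  obtain ⟨n0, h0, hb⟩ := h.oD.big
  obtain ⟨n, hn, hn1, hn0⟩ : ∃ n, 0 < n ∧ n1 ∣ n ∧ n0 ≤ n :=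
    ⟨n1 * n0, mul_pos h1 h0, dvd_mul_right _ _, Nat.le_mul_of_pos_left _ h1⟩
  obtain ⟨Z, hZ, hZc⟩ := hb n hn0
  obtain ⟨φ, hφ, hφZ⟩ := hψ Z
  obtain ⟨col, hcol⟩ := hs n hn
  have hq : (0 : ℚ) < q ^ n := pow_pos (by exact_mod_cast zero_lt_two.trans_le h.oD.two) _
  have hT : ∀ x ∈ D.T m, x ∈ Z := fun x hx => (hZ x).2 (AC.T_dvd hx (hm1.trans hn1))
  have hp : ∀ i, ∀ x ∈ Z, H.sp x ((H.F ^ i) φ) = C.cl (C.f^[i] (ψ x)) := fun i x hx => by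
    rw [h.sp_pow, hφZ x hx, h.oC.pow_cl]
  have two : ∀ i j, col ((H.F ^ i) φ) = col ((H.F ^ j) φ) → ∃ a ∈ H.M,
      24 * (H.c * H.β a a) ≤ q ^ n ∧
      ∀ x ∈ Z, H.sp x a = C.cl (C.f^[i] (ψ x)) - C.cl (C.f^[j] (ψ x)) := fun i j e => by
    obtain ⟨l, hl, e1⟩ := hcol _ (h.pow_mem hφ i) _ (h.pow_mem hφ j) e
    refine ⟨_, sub_mem (sub_mem (h.pow_mem hφ i) (h.pow_mem hφ j)) (sub_mem (h.pow_mem hl n) hl),
      ?_, fun x hx => by rw [map_sub, h.sp_T hl ((hZ x).1 hx), sub_zero, map_sub, hp i x hx,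
        hp j x hx]⟩
    rw [one_div, le_inv_mul_iff₀ (by positivity)] at e1
    linarith [h.psd ((H.F ^ i) φ - (H.F ^ j) φ - ((H.F ^ n) l - l))]
  obtain ⟨y, hy⟩ := Fintype.exists_lt_card_fiber_of_mul_lt_card
    (fun i : Fin (2 * s + 1) => col ((H.F ^ (i : ℕ)) φ)) (n := 2) (by simp; omega)
  obtain ⟨i, hi, j, hj, k, hk, hij, hik, hjk⟩ := Finset.two_lt_card.1 hy
  simp only [Finset.mem_filter, Finset.mem_univ, true_and] at hi hj hk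
  obtain ⟨a, ha, ha1, ha2⟩ := two i j (hi.trans hj.symm)
  obtain ⟨b, hb, hb1, hb2⟩ := two j k (hj.trans hk.symm)
  have hab : ∀ x ∈ Z, H.sp x (a + b) = C.cl (C.f^[i] (ψ x)) - C.cl (C.f^[k] (ψ x)) :=
    fun x hx => by rw [map_add, ha2 x hx, hb2 x hx, sub_add_sub_cancel]
  have small : ∀ i j : Fin (2 * s + 1), i ≠ j → (∀ x ∈ Z, H.sp x 0 =
      C.cl (C.f^[i] (ψ x)) - C.cl (C.f^[j] (ψ x))) →
      (ψ '' D.T m).ncard ≤ max (C.T (2 * s).factorial).ncard 2 := fun i j hij e => by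
    refine (Set.ncard_le_ncard ?_ (h.oC.fin _ (Nat.factorial_pos _))).trans (le_max_left _ _)
    rintro - ⟨x, hx, rfl⟩
    exact per h.oC (Fin.val_ne_of_ne hij) (by omega) (by omega)
      (hg.inj (sub_eq_zero.1 ((e x (hT x hx)).symm.trans (map_zero _))))
  by_cases e1 : a = 0
  · exact .inr (small i j hij (e1 ▸ ha2))
  by_cases e2 : b = 0
  · exact .inr (small j k hjk (e2 ▸ hb2))
  by_cases e3 : a + b = 0
  · exact .inr (small i k hik (e3 ▸ hab))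
  obtain ⟨e, f1, f2, f3, hf1, hf2⟩ := ht a ha b hb e1 e2 e3 Z
    (fun x hx => ⟨_, _, _, ha2 x hx, hb2 x hx⟩) (by linarith)
  obtain ⟨Z', hZ', hZ1, hZ2⟩ := rest h ha hb e1 e2 e3 Z
  have hgx : ∀ x ∈ Z, H.sp x (H.mc f2 - (H.F ^ (e + j)) φ) =
      C.cl (H.mv f2 x) - C.cl (C.f^[e + j] (ψ x)) := fun x hx => by
    rw [map_sub, h.sp_mc, hp _ x hx]
  obtain ⟨γ, hγ⟩ := hU n hn hn1 _ (sub_mem (h.mc_mem f2) (h.pow_mem hφ (e + j))) 0 Z'
    (fun x hx => ⟨(hZ x).1 (hZ' hx), by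
      obtain ⟨d1, d2, d3⟩ := hZ1 x hx
      have g1 := congrArg (H.sp x) hf1
      have g2 := congrArg (H.sp x) hf2
      rw [h.sp_pow, ha2 x (hZ' hx)] at g1
      rw [h.sp_pow, hb2 x (hZ' hx)] at g2
      simp only [map_sub, h.oC.pow_cl, h.sp_mc] at g1 g2
      rw [hgx x (hZ' hx), Function.iterate_add_apply, (hg.uniq g1 g2
        ((h.oC.f_inj.iterate e).ne fun d => d1 (by rw [ha2 x (hZ' hx), d, sub_self]))
        ((h.oC.f_inj.iterate e).ne fun d => d2 (by rw [hb2 x (hZ' hx), d, sub_self]))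
        ((h.oC.f_inj.iterate e).ne fun d => d3 (by rw [hab x (hZ' hx), d, sub_self]))).2.1,
        sub_self]⟩) (by linarith)
  have hγ' : ∀ x ∈ D.T m, C.cl (H.mv f2 x) - C.cl (C.f^[e + j] (ψ x)) = γ := fun x hx =>
    (hgx x (hT x hx)).symm.trans (hγ x hx)
  by_cases e4 : γ = 0
  · obtain ⟨f', hf'⟩ := h.mpow f2 ((m - 1) * (e + j))
    refine .inl ⟨f', fun x hx => ?_⟩
    rw [hf', hg.inj (sub_eq_zero.1 ((hγ' x hx).trans e4)), ← Function.iterate_add_apply]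
    refine AC.T_dvd (h.sv_T hg.inj hψ hx) ⟨e + j, ?_⟩
    obtain ⟨m, rfl⟩ := Nat.exists_eq_succ_of_ne_zero hm.ne'
    simp [Nat.succ_mul]
  refine .inr (le_trans (not_lt.1 fun h2 => ?_) (le_max_right _ _))
  obtain ⟨-, ⟨x, hx, rfl⟩, -, ⟨x', hx', rfl⟩, -, ⟨x'', hx'', rfl⟩, d1, d2, d3⟩ :=
    (Set.two_lt_ncard ((h.oD.fin m hm).image ψ)).1 h2
  rcases hg.two e4 (hγ' x hx) (hγ' x' hx') (hγ' x'' hx'') with d | d | d
  exacts [d1 (h.oC.f_inj.iterate _ d), d2 (h.oC.f_inj.iterate _ d), d3 (h.oC.f_inj.iterate _ d)]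

end Pool.Agent.P.MP_ab3ecb_nt.Cc
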