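import Pool.Agent.P.MP_ab3ecb_nt.Cc.IfA

/-! Step PH. -/

namespace Pool.Agent.P.MP_ab3ecb_nt.Cc

open Polynomial

theorem p_PH (hPH0 : S_PH0) :
    S_PH := by
  intro Λ _ _ q F b h ε hε
  obtain ⟨r, e, he⟩ := Module.Finite.exists_fin (R := ℤ) (M := Λ)
  have C0 : 0 ≤ ∑ i, ∑ j, |b (e j) (e i)| := by positivity
  obtain ⟨k, hk⟩ := exists_nat_gt (4 * (∑ i, ∑ j, |b (e j) (e i)|) / ε)
  have k0 : (0 : ℚ) < k := lt_of_le_of_lt (by positivity) hk
  have k1 : (1 : ℚ) ≤ k := by exact_mod_cast k0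
  refine ⟨Fintype.card (Fin r → Fin k), fun n hn => ?_⟩
  choose t u t0 hu using hPH0 Λ q F b h n hn
  choose m hm using fun a => (Submodule.mem_span_range_iff_exists_fun ℤ).1
    (show u a ∈ Submodule.span ℤ (Set.range e) from he ▸ Submodule.mem_top)
  obtain ⟨c, hc⟩ : ∃ c : Λ → Fin r → ℚ, ∀ a i, t a * c a i = m a i :=
    ⟨fun a i => m a i / t a, fun a i => mul_div_cancel₀ _ (by exact_mod_cast (t0 a).ne')⟩
  have nn : ∀ a i, 0 ≤ k * Int.fract (c a i) := fun a i => mul_nonneg k0.le (Int.fract_nonneg _)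
  have lt : ∀ a i, ⌊k * Int.fract (c a i)⌋₊ < k := fun a i =>
    (Nat.floor_lt (nn a i)).2 (mul_lt_of_lt_one_right k0 (Int.fract_lt_one _))
  refine ⟨fun a => Fintype.equivFin _ fun i => ⟨_, lt a i⟩, fun a a' hc' => ?_⟩
  have h1 : ∀ i, ⌊k * Int.fract (c a i)⌋₊ = ⌊k * Int.fract (c a' i)⌋₊ := fun i =>
    congrArg Fin.val (congrFun ((Fintype.equivFin _).injective hc') i)
  have T0 : (0 : ℚ) < t a * t a' := by exact_mod_cast mul_pos (t0 a) (t0 a')
  let z : Fin r → ℤ := fun i => t a' * m a i - t a * m a' i - t a * t a' * (⌊c a i⌋ - ⌊c a' i⌋)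
  have hz : ∀ i, |(z i : ℚ)| ≤ t a * t a' / k := fun i => by
    have e1 : (z i : ℚ) = t a * t a' * (Int.fract (c a i) - Int.fract (c a' i)) := by
      simp only [z, Int.fract]
      push_cast
      rw [← hc, ← hc]
      ring
    have a1 := Nat.floor_le (nn a i)
    have a2 := Nat.lt_floor_add_one (k * Int.fract (c a i))
    have a3 := Nat.floor_le (nn a' i)
    have a4 := Nat.lt_floor_add_one (k * Int.fract (c a' i))
    rw [h1] at a1 a2
    rw [e1, abs_mul, abs_of_pos T0, le_div_iff₀ k0, mul_assoc]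
    refine mul_le_of_le_one_right T0.le ?_
    rw [← abs_of_pos k0, ← abs_mul, abs_le]
    constructor <;> linarith
  refine ⟨∑ i, (⌊c a i⌋ - ⌊c a' i⌋) • e i, ?_⟩
  have hv : ∑ i, z i • e i = t a' • u a - t a • u a'
      - (t a * t a') • ∑ i, (⌊c a i⌋ - ⌊c a' i⌋) • e i := by
    simp only [z, sub_smul _ (_ * _), mul_smul, Finset.sum_sub_distrib, ← Finset.smul_sum, hm,
      natCast_zsmul]
  have h2 := h.le n (∑ i, z i • e i)
  have h3 := form_sum_le b e z hz
  generalize ∑ i, (⌊c a i⌋ - ⌊c a' i⌋) • e i = l at hv ⊢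
  have h4 : (F ^ n) (∑ i, z i • e i) - ∑ i, z i • e i
      = (t a * t a') • (a - a' - ((F ^ n) l - l)) := by
    rw [hv, map_sub, map_sub, map_nsmul, map_nsmul, map_nsmul]
    have e1 := congrArg (t a' • ·) (hu a)
    have e2 := congrArg (t a • ·) (hu a')
    simp only [smul_sub, smul_smul, mul_comm (t a')] at e1 e2 ⊢
    linear_combination (norm := abel) e2 - e1
  rw [h4, form_nsmul] at h2
  rw [div_lt_iff₀ hε] at hk
  have h5 : (0 : ℚ) ≤ 4 * q ^ n := by positivity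
  refine le_of_mul_le_mul_left (h2.trans ((mul_le_mul_of_nonneg_left h3 h5).trans ?_))
    (by push_cast; positivity)
  push_cast
  rw [div_pow, div_mul_eq_mul_div, mul_div_assoc', div_le_iff₀ (by positivity)]
  have h6 : 4 * ∑ i, ∑ j, |b (e j) (e i)| ≤ ε * k ^ 2 := by nlinarith [mul_pos hε k0]
  nlinarith [mul_le_mul_of_nonneg_left h6 (show (0 : ℚ) ≤ q ^ n * (t a * t a') ^ 2 by positivity)]

end Pool.Agent.P.MP_ab3ecb_nt.Cc
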