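import Pool.Agent.P.MP_ab3ecb_nt.Cc.IfA

/-! Step PH0. -/

namespace Pool.Agent.P.MP_ab3ecb_nt.Cc

open Polynomial

namespace PH0b

lemma key {Λ : Type} [AddCommGroup Λ] (G : Module.End ℤ Λ) (hG : ∀ a, G a = 0 → a = 0) (a : Λ)
    (p : ℤ[X]) (h0 : p ≠ 0) (h : aeval G p a = 0) : ∃ (c : ℤ) (u : Λ), c ≠ 0 ∧ c • a = G u := by
  induction hn : p.natDegree using Nat.strong_induction_on generalizing p with
  | _ n ih =>
    have e : G (aeval G p.divX a) + p.coeff 0 • a = 0 := by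
      rw [← h]
      conv_rhs => rw [← X_mul_divX_add p]
      simp
    by_cases hc : p.coeff 0 = 0
    · rw [hc, zero_smul, add_zero] at e
      have h1 : p.divX ≠ 0 := fun e1 => h0 (by rw [← X_mul_divX_add p, e1, hc]; simp)
      exact ih _ (hn ▸ natDegree_lt_natDegree h1 (degree_divX_lt h0)) _ h1 (hG _ e) rfl
    · exact ⟨_, -aeval G p.divX a, hc, by rw [map_neg]; exact eq_neg_of_add_eq_zero_right e⟩

end PH0b

theorem p_PH0 :
    S_PH0 := by
  intro Λ _ _ q F b h n hn a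
  obtain ⟨p, h1, h2⟩ := LinearMap.exists_monic_and_aeval_eq_zero ℤ (F ^ n - 1)
  obtain ⟨c, u, h3, h4⟩ := PH0b.key (F ^ n - 1) (fun a e => h.fix hn (sub_eq_zero.1 e)) a p
    h1.ne_zero (by rw [h2]; rfl)
  refine ⟨c.natAbs, c.sign • u, Int.natAbs_pos.2 h3, ?_⟩
  change _ = (F ^ n - 1) (c.sign • u)
  rw [map_smul, ← h4, smul_smul, Int.sign_mul_self_eq_natAbs, natCast_zsmul]

end Pool.Agent.P.MP_ab3ecb_nt.Cc
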