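import Pool.Agent.P.MP_ab3ecb_nt.Cc.IfA

/-! Step POL. -/

namespace Pool.Agent.P.MP_ab3ecb_nt.Cc

open Polynomial

namespace POLb

/-- The polynomial with the given coefficients. -/
noncomputable def pl {m : ℕ} (z : Fin m → ℤ) : ℤ[X] := ∑ i : Fin m, monomial i (z i)

lemma pl_ev {A : Type} [AddCommGroup A] (F : Module.End ℤ A) {m : ℕ} (z : Fin m → ℤ) (a : A) :
    aeval F (pl z) a = ∑ i, z i • (F ^ (i : ℕ)) a := by simp [pl, aeval_monomial]

lemma pl_ne {m : ℕ} {z : Fin m → ℤ} (h : z ≠ 0) : pl z ≠ 0 := fun e => h (funext fun i => by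
  simpa [pl, coeff_monomial, Fin.val_inj] using congrArg (coeff · i) e)

lemma pig (hGER : S_GER) (A : Type) [AddCommGroup A] [Finite A] (F : Module.End ℤ A) (m B : ℕ)
    (h : Nat.card A < B ^ m) : ∃ z : Fin m → ℤ, z ≠ 0 ∧ (∀ i, |(z i : ℚ)| ≤ B) ∧
      ∀ a, aeval F (pl z) a = 0 := by
  haveI : Finite (Module.End ℤ A) := DFunLike.finite _
  have : ¬ Function.Injective fun z : Fin m → Fin B =>
      (⟨_, pl fun i => (z i : ℕ), rfl⟩ : (aeval (R := ℤ) F).range) := fun e => by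
    have := (Nat.card_le_card_of_injective _ e).trans (hGER A F)
    simp only [Nat.card_eq_fintype_card, Fintype.card_pi, Fintype.card_fin, Finset.prod_const,
      Finset.card_univ] at this
    omega
  obtain ⟨z, w, e, hn⟩ := Function.not_injective_iff.1 this
  refine ⟨fun i => (z i : ℕ) - (w i : ℕ), fun q => hn (funext fun i => Fin.ext ?_), fun i => ?_,
    fun a => ?_⟩
  · exact_mod_cast sub_eq_zero.1 (congrFun q i)
  · have h1 : ((z i : ℕ) : ℚ) ≤ B := by exact_mod_cast (z i).2.le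
    have h2 : ((w i : ℕ) : ℚ) ≤ B := by exact_mod_cast (w i).2.le
    have h3 : (0 : ℚ) ≤ (z i : ℕ) := Nat.cast_nonneg _
    have h4 : (0 : ℚ) ≤ (w i : ℕ) := Nat.cast_nonneg _
    push_cast
    rw [abs_le]
    constructor <;> linarith
  · have : aeval F (pl fun i => (z i : ℕ)) a = aeval F (pl fun i => (w i : ℕ)) a :=
      DFunLike.congr_fun (congrArg Subtype.val e) a
    simp only [pl_ev, sub_smul, Finset.sum_sub_distrib] at this ⊢
    exact sub_eq_zero.2 this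

lemma kill (hGER : S_GER) {C : AC} {q : ℕ} (h : C.Ok q) {n m B : ℕ} (h1 : (C.J n).Finite)
    (h2 : (C.J n).ncard < B ^ m) : ∃ z : Fin m → ℤ, z ≠ 0 ∧ (∀ i, |(z i : ℚ)| ≤ B) ∧
      ∀ a ∈ C.J n, aeval C.F (pl z) a = 0 := by
  let A : AddSubgroup C.P := C.dg.ker ⊓ (C.F ^ n).toAddMonoidHom.eqLocus (AddMonoidHom.id _)
  haveI : Finite A := h1
  let F0 : A →+ A := (C.F.toAddMonoidHom.comp A.subtype).codRestrict _ fun a =>
    ⟨(h.dg_F a).trans a.2.1, (map_pow_end C.F.toAddMonoidHom (fun _ => rfl) n a.1).symm.trans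
      (congrArg C.F a.2.2)⟩
  obtain ⟨z, h3, h4, h5⟩ := pig hGER A F0.toIntLinearMap m B h2
  exact ⟨z, h3, h4, fun a ha => (map_aeval (F := F0.toIntLinearMap) A.subtype (fun _ => rfl) _
    ⟨a, ha⟩).symm.trans (congrArg A.subtype (h5 _))⟩

end POLb

open POLb in
theorem p_POL (hGER : S_GER) :
    S_POL := by
  rintro C H q h ⟨y, hy, hs⟩
  obtain ⟨N, hN⟩ := h.oC.jn
  obtain ⟨n0, h0, hb⟩ := h.oC.big
  have hq := h.oC.two
  have q1 : (1 : ℚ) < q := by exact_mod_cast hq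
  obtain ⟨C1, hC⟩ : ∃ C1, C1 = ∑ i : Fin (4 * N + 1), ∑ j : Fin (4 * N + 1),
    |H.β ((H.F ^ (j : ℕ)) y) ((H.F ^ (i : ℕ)) y)| := ⟨_, rfl⟩
  obtain ⟨k0, hk⟩ := pow_unbounded_of_one_lt (2 * (H.c * C1)) q1
  obtain ⟨k, k1, k2⟩ : ∃ k, n0 ≤ k ∧ k0 ≤ k := ⟨n0 + k0, by omega, by omega⟩
  obtain ⟨Z, hZ, hc⟩ := hb (4 * k) (by omega)
  obtain ⟨x0, hx⟩ : Z.Nonempty := Finset.card_pos.1 (by
    have : (0 : ℚ) < 2 * Z.card := lt_of_lt_of_le (by positivity) hc
    exact_mod_cast (mul_pos_iff_of_pos_left two_pos).1 this)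
  obtain ⟨f1, f2⟩ := hN (4 * k) (by omega)
  obtain ⟨z, z0, z1, z2⟩ := kill hGER h.oC (m := 4 * N + 1) (B := q ^ k) f1 (f2.trans_lt (by
    rw [← pow_mul]
    exact Nat.pow_lt_pow_right hq (by nlinarith)))
  have e : ∀ x, H.sp x (aeval H.F (pl z) y - H.up (aeval C.F (pl z) (C.cl x0))) =
      aeval C.F (pl z) (C.cl x - C.cl x0) := fun x => by
    rw [map_sub, map_sub, h.sp_up, h.sp_aeval, hs]
  have a0 := h.van (sub_mem (aeval_mem h.F_memg (pl z) hy) (h.up_mem _)) Z (fun x k => by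
    rw [e]
    exact z2 _ ⟨by rw [map_sub, h.oC.dg_cl, h.oC.dg_cl, sub_self], by
      rw [map_sub, h.oC.pow_cl, h.oC.pow_cl, AC.mem_T.1 ((hZ _).1 k),
        AC.mem_T.1 ((hZ _).1 hx)]⟩) (by
    have b1 := mul_le_mul_of_nonneg_left (form_sum_le H.β
      (fun i : Fin (4 * N + 1) => (H.F ^ (i : ℕ)) y) z z1) (H.c.cast_nonneg (α := ℚ))
    have b2 : (q : ℚ) ^ k0 ≤ (q ^ k) ^ 2 := by
      rw [← pow_mul]
      exact pow_le_pow_right₀ q1.le (by omega)
    have b3 := mul_lt_mul_of_pos_left (hk.trans_le b2) (show (0 : ℚ) < (q ^ k) ^ 2 by positivity)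
    rw [← hC, Nat.cast_pow] at b1
    rw [h.sub_up, pl_ev]
    have b4 : ((q : ℚ) ^ k) ^ 2 * (q ^ k) ^ 2 = q ^ (4 * k) := by ring
    linarith)
  refine ⟨pl z, pl_ne z0, fun a ha => ?_⟩
  have := DFunLike.congr_fun (h.oC.hom_ext (u := (aeval C.F (pl z)).toAddMonoidHom)
    (v := (zmultiplesHom _ (aeval C.F (pl z) (C.cl x0))).comp C.dg) fun x => by
      have := e x
      rw [a0, map_zero, map_sub] at this
      simpa [h.oC.dg_cl] using sub_eq_zero.1 this.symm) a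
  simpa [ha] using this

end Pool.Agent.P.MP_ab3ecb_nt.Cc
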