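import Pool.Agent.P.MP_ab3ecb_nt.Cc.IfA

/-! Step RK. -/

namespace Pool.Agent.P.MP_ab3ecb_nt.Cc

open Polynomial

namespace RKb

lemma num {r J : ℕ} (h : ∀ t, (r + 1) ^ t ≤ r ^ (J + t)) : False := by
  rcases Nat.eq_zero_or_pos r with rfl | h0
  · simpa using h 1
  · have h1 : (0 : ℚ) < r := by exact_mod_cast h0
    obtain ⟨t, ht⟩ := pow_unbounded_of_one_lt ((r : ℚ) ^ J)
      (show (1 : ℚ) < (r + 1) / r by rw [one_lt_div h1]; linarith)
    have h2 : ((r : ℚ) + 1) ^ t ≤ r ^ J * r ^ t := by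
      rw [← pow_add]; exact_mod_cast h t
    rw [div_pow, lt_div_iff₀ (pow_pos h1 t)] at ht
    linarith

end RKb

theorem p_RK :
    S_RK := by
  classical
  intro Λ _ q F b l r m0 η _ hl hη h s hs
  by_contra hk
  have hl1 : (1 : ℚ) < l := by exact_mod_cast hl
  obtain ⟨j, hj⟩ := pow_unbounded_of_one_lt
    ((∑ i : s, ∑ j : s, |b (j : Λ) (i : Λ)|) / η) hl1
  rw [div_lt_iff₀ hη] at hj
  refine RKb.num (r := r) (J := j + m0) fun t => ?_
  let φ : (s → Fin (l ^ t)) → Λ := fun z => ∑ i : s, ((z i : ℕ) : ℤ) • (i : Λ)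
  have hsub : ∀ z z', φ z - φ z' = ∑ i : s, (((z i : ℕ) : ℤ) - (z' i : ℕ)) • (i : Λ) :=
    fun z z' => by simp only [φ, sub_smul, Finset.sum_sub_distrib]
  have hφ : Function.Injective φ := fun z z' e => by
    have := Fintype.linearIndependent_iff.1 hs (fun i => ((z i : ℕ) : ℤ) - (z' i : ℕ))
      (by rw [← hsub, e, sub_self])
    exact funext fun i => Fin.ext (by have := this i; omega)
  have h1 := h (j + m0 + t) (by omega) (Finset.univ.image φ) fun a ha a' ha' => by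
    obtain ⟨z, -, rfl⟩ := Finset.mem_image.1 ha
    obtain ⟨z', -, rfl⟩ := Finset.mem_image.1 ha'
    rw [hsub]
    refine (form_sum_le b (fun i : s => (i : Λ)) _ (m := (l : ℚ) ^ t) fun i => ?_).trans ?_
    · have e1 : (((z i : ℕ) : ℚ)) < (l : ℚ) ^ t := by exact_mod_cast (z i).2
      have e2 : (((z' i : ℕ) : ℚ)) < (l : ℚ) ^ t := by exact_mod_cast (z' i).2
      have e3 : (0 : ℚ) ≤ ((z i : ℕ) : ℚ) := Nat.cast_nonneg _
      have e4 : (0 : ℚ) ≤ ((z' i : ℕ) : ℚ) := Nat.cast_nonneg _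
      push_cast
      rw [abs_le]
      constructor <;> linarith
    · have e1 : (l : ℚ) ^ j ≤ ((l : ℚ) ^ (j + m0)) ^ 2 := by
        rw [← pow_mul]; exact pow_le_pow_right₀ hl1.le (by omega)
      have e2 := mul_le_mul_of_nonneg_right e1 hη.le
      have e3 : (0 : ℚ) ≤ ((l : ℚ) ^ t) ^ 2 := by positivity
      refine (mul_le_mul_of_nonneg_left (hj.le.trans e2) e3).trans_eq ?_
      ring
  rw [Finset.card_image_of_injective _ hφ, Finset.card_univ, Fintype.card_fun, Fintype.card_fin,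
    Fintype.card_coe, ← pow_mul, mul_comm, pow_mul] at h1
  refine (Nat.pow_le_pow_left ?_ t).trans h1
  have := Nat.lt_pow_self (n := s.card) (show 1 < l by omega)
  omega

end Pool.Agent.P.MP_ab3ecb_nt.Cc
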