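import Pool.Agent.P.MP_ab3ecb_nt.Cc.IfA

/-! Step RKB. -/

namespace Pool.Agent.P.MP_ab3ecb_nt.Cc

open Polynomial

theorem p_RKB :
    S_RKB := by
  intro C D H q l m n Q θ Z h hl l0 n0 hθ hC hD hZ hc d hd hb
  have q1 : (1 : ℚ) < q ^ n := one_lt_pow₀ (by exact_mod_cast h.oC.two) n0.ne'
  have L0 : (0 : ℚ) < (l ^ m) ^ 2 := by positivity
  obtain ⟨x0, h0⟩ := Finset.card_pos.1 (show 0 < Z.card by
    have : (0 : ℚ) < Z.card := by linarith
    exact_mod_cast this)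
  set d0 := d.1 - H.up (H.sp x0 d) with e0
  have m0 : d0 ∈ H.Mg := sub_mem (h.le d.2) (h.up_mem _)
  have s0 x : H.sp x d0 = H.sp x d - H.sp x0 d := by rw [e0, map_sub, h.sp_up]
  have g0 x : C.dg (H.sp x d0) = 0 := by rw [s0, map_sub, h.dgs x x0, sub_self]
  have mu : aeval H.F Q d0 ∈ H.Mg := aeval_mem h.F_memg Q m0
  have hu : ∀ x ∈ Z, H.sp x (aeval H.F Q d0) = 0 := fun x hx => by
    have a1 := hD (D.cl x - D.cl x0) (by rw [map_sub, h.oD.dg_cl, h.oD.dg_cl, sub_self])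
    rw [map_sub, h.oD.pow_cl, h.oD.pow_cl, hZ x hx, hZ x0 h0, sub_self] at a1
    obtain ⟨b, a2⟩ := (QuotientAddGroup.eq_zero_iff _).1 ((hθ d x x0).symm.trans (hd _ a1.symm))
    have a3 := hC _ (g0 x)
    rw [s0, map_sub (C.F ^ n), ← h.fix_pow d.2, ← h.fix_pow d.2, hZ x hx, hZ x0 h0,
      sub_self] at a3
    rw [h.sp_aeval, s0]
    exact AddMonoid.addOrderOf_eq_one_iff.1 (Nat.eq_one_of_dvd_coprimes (Nat.Coprime.pow m b hl)
      (addOrderOf_dvd_of_nsmul_eq_zero a3.symm) (addOrderOf_dvd_of_nsmul_eq_zero a2))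
  have hv : (H.F ^ n) d0 - d0 = l ^ m • aeval H.F Q d0 :=
    sub_eq_zero.1 (h.van_all (sub_mem (sub_mem (h.pow_memg m0 n) m0) (nsmul_mem mu _)) fun x => by
      rw [map_sub, map_sub, map_nsmul, h.sp_pow, h.sp_aeval, hC _ (g0 x), sub_self])
  have b1 := h.le4 n d0
  rw [hv, form_nsmul, e0, h.sub_up, ← e0] at b1
  by_contra ne
  have B0 := (h.psd d).lt_of_ne' ne
  have c0 : (0 : ℚ) ≤ H.c := Nat.cast_nonneg _
  have u0 := h.van mu Z hu (lt_of_mul_lt_mul_left (a := ((l : ℚ) ^ m) ^ 2) (by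
    push_cast at b1
    nlinarith [mul_le_mul_of_nonneg_left b1 c0, mul_le_mul_of_nonneg_left hc L0.le,
      mul_le_mul_of_nonneg_left hb (zero_le_one.trans q1.le), mul_pos (one_pos.trans q1) B0])
    L0.le)
  rw [u0, smul_zero, sub_eq_zero] at hv
  have b2 := form_pow h.scal n d0 d0
  rw [hv, e0, h.sub_up] at b2
  nlinarith

end Pool.Agent.P.MP_ab3ecb_nt.Cc
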