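import Pool.Agent.P.MP_ab3ecb_nt.Cc.IfA

/-! Step THETA. -/

namespace Pool.Agent.P.MP_ab3ecb_nt.Cc

open Polynomial

namespace THETAb

variable {C D : AC} {H : AH C D} {q : ℕ}

theorem one (h : H.Ok q) (a : H.M) :
    ∃ t : D.P →+ C.P ⧸ C.Tq q, ∀ x, t (D.cl x) = (H.sp x a : C.P) := by
  let p : (D.X →₀ ℤ) →+ D.P := (Finsupp.linearCombination ℤ D.cl).toAddMonoidHom
  let u : (D.X →₀ ℤ) →+ C.P ⧸ C.Tq q := (QuotientAddGroup.mk' _).comp
    (Finsupp.linearCombination ℤ fun x => H.sp x a).toAddMonoidHom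
  have p1 : ∀ x, p (Finsupp.single x 1) = D.cl x := fun x => by simp [p]
  have hp : Function.Surjective p := fun z =>
    h.oD.ind (p := fun z => z ∈ p.range) (fun x => ⟨_, p1 x⟩) (zero_mem _)
      (fun _ _ => add_mem) (fun _ => neg_mem) z
  have hk : p.ker ≤ u.ker := fun Z hZ =>
    (QuotientAddGroup.eq_zero_iff _).2 (h.lin a a.2 Z hZ)
  refine ⟨p.liftOfSurjective hp ⟨u, hk⟩, fun x => ?_⟩
  rw [← p1, AddMonoidHom.liftOfRightInverse_comp_apply]
  simp [u]

end THETAb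

theorem p_THETA :
    S_THETA := by
  intro C D H q h
  choose t ht using THETAb.one h
  let G : Module.End ℤ (C.P ⧸ C.Tq q) :=
    (QuotientAddGroup.map (C.Tq q) (C.Tq q) C.F.toAddMonoidHom fun a ⟨b, e⟩ =>
      ⟨b, by rw [LinearMap.toAddMonoidHom_coe, ← map_nsmul, e, map_zero]⟩).toIntLinearMap
  have hG : ∀ a : C.P, QuotientAddGroup.mk' (C.Tq q) (C.F a) = G (QuotientAddGroup.mk' _ a) :=
    fun _ => rfl
  refine ⟨AddMonoidHom.mk' t fun a b => h.oD.hom_ext fun x => by simp [ht], ht,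
    fun a R x x' => ?_⟩
  have h1 : ∀ z, t a (D.F z) = G (t a z) := fun z =>
    DFunLike.congr_fun (h.oD.hom_ext (u := (t a).comp D.F.toAddMonoidHom)
      (v := G.toAddMonoidHom.comp (t a)) fun x => by
        show t a (D.F (D.cl x)) = G (t a (D.cl x))
        rw [h.oD.F_cl, ht, ht, h.fix a a.2]
        exact hG _) z
  show t a _ = QuotientAddGroup.mk' (C.Tq q) _
  rw [map_aeval (t a) h1, map_aeval _ hG, map_sub (t a), ht, ht]
  rfl

end Pool.Agent.P.MP_ab3ecb_nt.Cc
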