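import Pool.Agent.P.MP_9344a7_nt.Gt.Base

/-! The pencil trick, base points, and uniqueness of the pencil of degree two. -/

set_option autoImplicit false
set_option linter.unusedSectionVars false

namespace Pool.Agent.P.MP_ab3ecb_nt.Cc

open WithZero Module
open Pool.Agent.P.MP_6f117a_ag (Place FF)
open Pool.Agent.P.MP_ab3ecb_nt.Inv
open Pool.Agent.P.MP_9344a7_nt.R (rr_fd)
open Pool.Agent.P.MP_9344a7_nt.Gt
open scoped Classical

variable {k E : Type} [Field k] [Field E] [Algebra k E] [IsAlgClosed k] [FF k E]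
  {A A' B Z Z' W : Dv k E} {P Q y : Place k E} {f f' : E} {g : ℕ}

/-- `y` is a base point of the linear system of `A`. -/
def Bp (A : Dv k E) (y : Place k E) : Prop := lS (A - pt y) = lS A

lemma Bp.eq (h : Bp A y) : LS (A - pt y) = LS A :=
  have := rr_fd A
  Submodule.eq_of_le_of_finrank_eq (LS_mono (sub_le_self _ (pt_nonneg y))) h

lemma inf_LS (h : 0 ≤ Z) (h' : 0 ≤ Z') (hd : ∀ P, Z P = 0 ∨ Z' P = 0) :
    LS (B - Z) ⊓ LS (B - Z') = LS (B - Z - Z') := by
  refine le_antisymm (fun z hz => mem_LS.2 fun P => ?_)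
    (le_inf (LS_mono (sub_le_self _ h')) (LS_mono (by rw [sub_right_comm]; exact sub_le_self _ h)))
  rcases hd P with e | e
  · simpa [e] using mem_LS.1 hz.2 P
  · simpa [e] using mem_LS.1 hz.1 P

lemma sup_le_LS (h : 0 ≤ Z) (h' : 0 ≤ Z') : LS (B - Z) ⊔ LS (B - Z') ≤ LS B :=
  sup_le (LS_mono (sub_le_self _ h)) (LS_mono (sub_le_self _ h'))

lemma pen_dim (h : 0 ≤ Z) (h' : 0 ≤ Z') (hd : ∀ P, Z P = 0 ∨ Z' P = 0) :
    finrank k ↥(LS (B - Z) ⊔ LS (B - Z')) + lS (B - Z - Z') = lS (B - Z) + lS (B - Z') := by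
  have := rr_fd (B - Z)
  have := rr_fd (B - Z')
  rw [lS, ← inf_LS h h' hd]
  exact Submodule.finrank_sup_add_finrank_inf_eq _ _

lemma pen_le (h : 0 ≤ Z) (h' : 0 ≤ Z') (hd : ∀ P, Z P = 0 ∨ Z' P = 0) :
    lS (B - Z) + lS (B - Z') ≤ lS B + lS (B - Z - Z') := by
  have := rr_fd B
  rw [← pen_dim h h' hd]
  exact Nat.add_le_add_right (Submodule.finrank_mono (sup_le_LS h h')) _

lemma pen_eq (c : Can g W) (h : 0 ≤ Z) (h' : 0 ≤ Z') (hd : ∀ P, Z P = 0 ∨ Z' P = 0)
    (hB : 2 * (g : ℤ) - 1 ≤ deg B - deg Z - deg Z') : LS (B - Z) ⊔ LS (B - Z') = LS B := by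
  have := rr_fd B
  refine Submodule.eq_of_le_of_finrank_eq (sup_le_LS h h') ?_
  have h1 := pen_dim (B := B) h h' hd
  have d1 := deg_nonneg h
  have d2 := deg_nonneg h'
  have h2 := c.big (D := B) (by omega)
  have h3 := c.big (D := B - Z) (by rw [map_sub]; omega)
  have h4 := c.big (D := B - Z') (by rw [map_sub]; omega)
  have h5 := c.big (D := B - Z - Z') (by rw [map_sub, map_sub]; omega)
  simp only [map_sub] at h3 h4 h5
  change _ = lS B
  omega

lemma mem_LS_mul (h0 : f ≠ 0) {z : E} (hz : z ∈ LS (B - (dv k f + A))) :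
    ∃ s ∈ LS (B - A), z = f * s := by
  rw [LS_add_dv h0, show B - (dv k f + A) + dv k f = B - A by abel] at hz
  obtain ⟨s, h1, h2⟩ := hz
  exact ⟨s, h1, h2.symm⟩

/-- The pencil trick. -/
lemma pen (c : Can g W) (h : f ∈ LS A) (h' : f' ∈ LS A') (h0 : f ≠ 0) (h0' : f' ≠ 0)
    (hd : ∀ P, (dv k f + A) P = 0 ∨ (dv k f' + A') P = 0)
    (hB : 2 * (g : ℤ) - 1 ≤ deg B - deg A - deg A') {z : E} (hz : z ∈ LS B) :
    ∃ s ∈ LS (B - A), ∃ s' ∈ LS (B - A'), z = f * s + f' * s' := by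
  rw [← pen_eq c ((mem_LS' h0).1 h) ((mem_LS' h0').1 h') hd (by simpa using hB)] at hz
  obtain ⟨a, ha, b, hb, rfl⟩ := Submodule.mem_sup.1 hz
  obtain ⟨s, h1, rfl⟩ := mem_LS_mul h0 ha
  obtain ⟨s', h2, rfl⟩ := mem_LS_mul h0' hb
  exact ⟨s, h1, s', h2, rfl⟩

lemma not_mem_sub (h : f ∈ LS A) (h1 : f ∉ LS (A - pt P)) : f ≠ 0 ∧ (dv k f + A) P = 0 := by
  have h0 : f ≠ 0 := fun e => h1 (e ▸ zero_mem _)
  have h2 : 0 ≤ (dv k f + A) P := (mem_LS' h0).1 h P
  have h3 := mt (fun e => mem_LS_sub_pt.2 ⟨h, (lt_exp_iff h0).2 e⟩) h1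
  rw [Finsupp.add_apply, dv_apply] at h2 ⊢
  exact ⟨h0, by omega⟩

lemma avoid (h : lS A ≠ 0) (X : Finset (Place k E)) (hX : ∀ P ∈ X, ¬ Bp A P) :
    ∃ f ∈ LS A, f ≠ 0 ∧ ∀ P ∈ X, (dv k f + A) P = 0 := by
  have := rr_fd A
  have h1 := Subspace.biUnion_ne_univ_of_top_notMem (k := k) (E := LS A)
    (s := insert ⊥ (X.image fun P => (LS (A - pt P)).comap (LS A).subtype)) (by
      simp only [Finset.mem_insert, Finset.mem_image, not_or, not_exists, not_and]
      refine ⟨fun e => h (by rw [lS, ← finrank_top, e, finrank_bot]), fun P hP e => hX P hP ?_⟩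
      exact le_antisymm (lS_mono (sub_le_self _ (pt_nonneg P))) (by
        have := rr_fd (A - pt P)
        exact Submodule.finrank_mono (Submodule.comap_subtype_eq_top.1 e)))
  obtain ⟨⟨f, hf⟩, h2⟩ := (Set.ne_univ_iff_exists_notMem _).1 h1
  simp only [Set.mem_iUnion, not_exists] at h2
  exact ⟨f, hf, fun e => h2 ⊥ (by simp) (by simp [e]), fun P hP => (not_mem_sub hf
    (h2 _ (Finset.mem_insert_of_mem (Finset.mem_image_of_mem _ hP)))).2⟩

/-- Two systems without common base point have members without common point. -/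
lemma ncb (h : lS A ≠ 0) (h' : lS A' ≠ 0) (hb : ∀ P, ¬ (Bp A P ∧ Bp A' P)) :
    ∃ f ∈ LS A, ∃ f' ∈ LS A', f ≠ 0 ∧ f' ≠ 0 ∧
      ∀ P, (dv k f + A) P = 0 ∨ (dv k f' + A') P = 0 := by
  obtain ⟨X, -, hX⟩ := base_pts h'
  obtain ⟨f, h1, h2, h3⟩ := avoid h (X.filter (Bp A')) fun P hP e =>
    hb P ⟨e, (Finset.mem_filter.1 hP).2⟩
  obtain ⟨f', h4, h5, h6⟩ := avoid h' (dv k f + A).support fun P hP e =>
    Finsupp.mem_support_iff.1 hP (h3 P (Finset.mem_filter.2 ⟨by_contra fun e' => by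
      have := hX P e'
      rw [e] at this
      omega, e⟩))
  exact ⟨f, h1, f', h4, h2, h5, fun P => or_iff_not_imp_left.2 fun e =>
    h6 P (Finsupp.mem_support_iff.2 e)⟩

/-- The products span. -/
lemma span_mul (c : Can g W) (h : lS A ≠ 0) (h' : lS A' ≠ 0) (hb : ∀ P, ¬ (Bp A P ∧ Bp A' P))
    (hB : 2 * (g : ℤ) - 1 ≤ deg B - deg A - deg A') :
    LS A * LS (B - A) ⊔ LS A' * LS (B - A') = LS B := by
  refine le_antisymm (sup_le (Submodule.mul_le.2 fun a ha b hb => ?_)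
    (Submodule.mul_le.2 fun a ha b hb => ?_)) fun z hz => ?_
  · simpa using mul_mem_LS ha hb
  · simpa using mul_mem_LS ha hb
  obtain ⟨f, h1, f', h2, h3, h4, h5⟩ := ncb h h' hb
  obtain ⟨s, h6, s', h7, rfl⟩ := pen c h1 h2 h3 h4 h5 hB hz
  exact Submodule.add_mem_sup (Submodule.mul_mem_mul h1 h6) (Submodule.mul_mem_mul h2 h7)

lemma lS_W_sub (c : Can g W) (h0 : deg A = 0) (h : lS A = 0) : lS (W - A) + 1 = g := by
  have := c A
  omega

/-- The base points of the system of `W - A`. -/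
lemma bpt (c : Can g W) (h0 : deg A = 0) (h : lS A = 0) : Bp (W - A) y ↔ lS (A + pt y) ≠ 0 := by
  have h1 := c A
  have h2 := c (A + pt y)
  have h3 := lS_step (A + pt y) y
  rw [add_sub_cancel_right] at h3
  rw [map_add, deg_single, ← sub_sub] at h2
  unfold Bp
  omega

lemma eff_one (h0 : deg A = 1) (h : lS A ≠ 0) : ∃ y, Pr (pt y - A) := by
  obtain ⟨D, h1, h2⟩ := MP_9344a7_nt.R.exists_eff h
  have h3 := h2.deg_eq
  obtain ⟨y, hy⟩ : D.support.Nonempty := Finsupp.support_nonempty_iff.2 fun e => by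
    rw [e, map_zero] at h3
    omega
  have h4 : 0 ≤ D - pt y := fun P => by
    have h5 : 0 ≤ D P := h1 P
    have h6 := Finsupp.mem_support_iff.1 hy
    rcases eq_or_ne P y with rfl | e
    · simp only [Finsupp.coe_zero, Pi.zero_apply, Finsupp.sub_apply, Finsupp.single_eq_same]
      omega
    · simpa [pt_ne e] using h5
  have h5 := eq_zero_of_deg h4 (by rw [map_sub, deg_single]; omega)
  exact ⟨y, sub_eq_zero.1 h5 ▸ h2⟩

/-- There is only one pencil of degree two through a point. -/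
lemma g12 (c : Can g W) (hg : 2 ≤ g) (h : lS (pt y + pt P) ≠ 1) (h' : lS (pt y + pt Q) ≠ 1) :
    P = Q := by
  by_contra e
  have l1 := c.lS_pt (by omega : 0 < g)
  have two : ∀ R, lS (pt y + pt R) ≠ 1 → lS (pt y + pt R) = 2 := fun R hR => by
    have h1 := lS_step (pt y + pt R) R
    have h2 := lS_pos (add_nonneg (pt_nonneg y) (pt_nonneg R))
    rw [add_sub_cancel_right, l1] at h1
    omega
  have bp : ∀ R, ¬ Bp (pt y + pt P) R := fun R hR => by
    have h1 : lS (pt y + pt P - pt R) = 2 := hR.trans (two P h)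
    obtain ⟨R', h2⟩ := eff_one (A := pt y + pt P - pt R) (by simp) (by omega)
    have := h2.lS_eq
    rw [l1] at this
    omega
  obtain ⟨f, h1, f', h2, h3, h4, h5⟩ := ncb (A := pt y + pt P) (A' := pt y + pt P)
    (by rw [two P h]; omega) (by rw [two P h]; omega) fun R hR => bp R hR.1
  have st : ∀ B : Dv k E, 2 * lS (B - (pt y + pt P)) ≤
      lS B + lS (B - (pt y + pt P) - (pt y + pt P)) := fun B => by
    have := pen_le (B := B) ((mem_LS' h3).1 h1) ((mem_LS' h4).1 h2) h5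
    have a : ∀ (z : E) (D : Dv k E), z ≠ 0 → lS (D - (dv k z + (pt y + pt P))) =
        lS (D - (pt y + pt P)) := fun z D hz => by
      rw [← lS_add_dv hz]
      congr 1
      abel
    rw [a f' _ h4, a f _ h3, a f' _ h4, sub_right_comm, a f _ h3] at this
    omega
  have h6 := pen_le (B := pt y + pt P + pt Q) (pt_nonneg P) (pt_nonneg Q) fun R => by
    rcases eq_or_ne R P with rfl | e'
    · exact .inr (pt_ne e)
    · exact .inl (pt_ne e')
  rw [show pt y + pt P + pt Q - pt P = pt y + pt Q by abel, add_sub_cancel_right,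
    add_sub_cancel_right, two P h, two Q h', l1] at h6
  have key : ∀ m : ℕ, lS (pt Q + m • (pt y + pt P)) + 2 ≤ lS (pt Q + (m + 1) • (pt y + pt P)) ∧
      2 * m + 1 ≤ lS (pt Q + m • (pt y + pt P)) := fun m => by
    induction m with
    | zero =>
      rw [zero_nsmul, add_zero, l1, zero_add, one_nsmul, add_comm (pt Q)]
      omega
    | succ m ih =>
      have := st (pt Q + (m + 1 + 1) • (pt y + pt P))
      rw [succ_nsmul, ← add_assoc, add_sub_cancel_right, succ_nsmul _ m, ← add_assoc (pt Q),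
        add_sub_cancel_right, add_assoc (pt Q), ← succ_nsmul, add_assoc (pt Q),
        ← succ_nsmul] at this
      omega
  have h7 := (key g).2
  have h8 : deg (pt Q + g • (pt y + pt P)) = 1 + (g + g) := by simp
  have h9 := c.big (D := pt Q + g • (pt y + pt P)) (by omega)
  omega

lemma bp_two (c : Can g W) (h0 : deg A = 0) (h : lS A = 0) (hy : Bp (W - A) y) :
    ∃ y', Pr (pt y' - (A + pt y)) ∧ ∀ P, Bp (W - A - pt y) P → lS (pt P + pt y') ≠ 1 := by
  obtain ⟨y', h1⟩ := eff_one (by simp [h0]) ((bpt c h0 h).1 hy)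
  refine ⟨y', h1, fun P hP => ?_⟩
  have h2 := c (A + pt y + pt P)
  have h3 := lS_W_sub c h0 h
  have h4 := Pr.lS_eq (D := pt P + pt y') (D' := A + pt y + pt P) (by convert h1 using 1; abel)
  rw [map_add, map_add, deg_single, deg_single, ← sub_sub, ← sub_sub, hP, hy] at h2
  omega

/-- A common base point is unique and simple. -/
lemma nb_two (c : Can g W) (hg : 2 ≤ g) (h0 : deg A = 0) (h : lS A = 0) (h0' : deg A' = 0)
    (h' : lS A' = 0) (hne : ¬ Pr (A - A')) (hy : Bp (W - A) y) (hy' : Bp (W - A') y) (P) :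
    ¬ (Bp (W - A - pt y) P ∧ Bp (W - A' - pt y) P) := fun hP => by
  obtain ⟨y1, h1, h2⟩ := bp_two c h0 h hy
  obtain ⟨y2, h3, h4⟩ := bp_two c h0' h' hy'
  obtain rfl := g12 c hg (h2 P hP.1) (h4 P hP.2)
  exact hne (by convert h3.sub h1 using 1; abel)

lemma span_none (c : Can g W) (hg : 2 ≤ g) (h0 : deg A = 0) (h : lS A = 0) (h0' : deg A' = 0)
    (h' : lS A' = 0) (hb : ∀ P, ¬ (Bp (W - A) P ∧ Bp (W - A') P)) (hB : 6 * (g : ℤ) ≤ deg B) :
    LS (W - A) * LS (B - (W - A)) ⊔ LS (W - A') * LS (B - (W - A')) = LS B := by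
  have h1 := lS_W_sub c h0 h
  have h2 := lS_W_sub c h0' h'
  exact span_mul c (by omega) (by omega) hb (by rw [map_sub, map_sub, c.deg_W]; omega)

lemma span_base (c : Can g W) (hg : 2 ≤ g) (h0 : deg A = 0) (h : lS A = 0) (h0' : deg A' = 0)
    (h' : lS A' = 0) (hne : ¬ Pr (A - A')) (hy : Bp (W - A) y) (hy' : Bp (W - A') y)
    (hB : 6 * (g : ℤ) ≤ deg B) :
    LS (W - A) * LS (B - (W - A)) ⊔ LS (W - A') * LS (B - (W - A')) = LS (B - pt y) := by
  have h1 := lS_W_sub c h0 h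
  have h2 := lS_W_sub c h0' h'
  have := span_mul (B := B - pt y) c (by rw [hy]; omega) (by rw [hy']; omega)
    (nb_two c hg h0 h h0' h' hne hy hy') (by simp only [map_sub, c.deg_W, deg_single]; omega)
  rwa [hy.eq, hy'.eq, sub_sub_sub_cancel_right, sub_sub_sub_cancel_right] at this

/-- Uniqueness of the triple. -/
lemma base_uniq (c : Can g W) (hg : 2 ≤ g) (h0 : deg A = 0) (h : lS A = 0) (h0' : deg A' = 0)
    (h' : lS A' = 0) (hne : ¬ Pr (A - A')) (hy : lS (A + pt y) ≠ 0) (hy' : lS (A' + pt y) ≠ 0)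
    (hP : lS (A + pt P) ≠ 0) (hP' : lS (A' + pt P) ≠ 0) : P = y := by
  by_contra e
  have key : ∀ {D : Dv k E}, Bp D y → Bp D P → Bp (D - pt y) P := fun {D} a b => by
    have := inf_LS (B := D) (pt_nonneg y) (pt_nonneg P) fun R => by
      rcases eq_or_ne R y with rfl | e'
      · exact .inr (pt_ne (Ne.symm e))
      · exact .inl (pt_ne e')
    rw [Bp, lS, lS, ← this, b.eq, inf_of_le_left (LS_mono (sub_le_self _ (pt_nonneg y)))]
  have a := (bpt c h0 h).2 hy
  have a' := (bpt c h0' h').2 hy'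
  exact nb_two c hg h0 h h0' h' hne a a' P
    ⟨key a ((bpt c h0 h).2 hP), key a' ((bpt c h0' h').2 hP')⟩

end Pool.Agent.P.MP_ab3ecb_nt.Cc
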