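import Pool.Agent.P.MP_ab3ecb_nt.Cc.IfA

/-! Step UPG. -/

namespace Pool.Agent.P.MP_ab3ecb_nt.Cc

open Polynomial

theorem p_UPG (hFIT : S_FIT) :
    S_UPG := by
  intro C D H q h hFG hCol m θ hm hθ
  have hc0 : (0 : ℚ) < H.c + 1 := by positivity
  obtain ⟨s, hs⟩ := hCol (θ / (H.c + 1)) (div_pos hθ hc0)
  obtain ⟨F, b, hL, hF, -⟩ := h.lat
  have : Module.Finite ℤ H.Λ := hFG
  obtain ⟨n1, h0, hm1, hfit⟩ := hFIT H.Λ q F b hL s.factorial m s.factorial_pos hm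
  refine ⟨n1, h0, hm1, fun n hn hn1 g hg γ Z hZ hcard => ?_⟩
  obtain ⟨col, hcol⟩ := hs n hn
  have key : ∀ i j : ℕ, i < j → j ≤ s → col (j • g) = col (i • g) →
      ∃ γ', ∀ x ∈ D.T m, H.sp x g = γ' := fun i j hij hj e => by
    obtain ⟨l, hl, hρ⟩ := hcol _ (nsmul_mem hg j) _ (nsmul_mem hg i) e
    obtain ⟨t, rfl⟩ := Nat.exists_eq_add_of_le hij.le
    have e1 : (i + t) • g - i • g = t • g := by rw [add_nsmul]; abel
    rw [e1] at hρ
    have hl' : (H.F ^ n) l - l ∈ H.M := sub_mem (h.pow_mem hl n) hl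
    have hq : (0 : ℚ) < (q : ℚ) ^ n :=
      pow_pos (by exact_mod_cast zero_lt_two.trans_le h.oC.two) _
    have hz : t • g - ((H.F ^ n) l - l) - H.up (t • γ) = 0 := by
      refine h.van (sub_mem (h.le (sub_mem (nsmul_mem hg t) hl')) (h.up_mem _)) Z
        (fun x hx => ?_) ?_
      · rw [map_sub, map_sub, h.sp_T hl (hZ x hx).1, h.sp_up, map_nsmul, (hZ x hx).2, sub_zero,
          sub_self]
      · rw [h.sub_up]
        have h1 : (H.c : ℚ) * (θ / (H.c + 1)) < θ := by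
          rw [← mul_div_assoc, div_lt_iff₀ hc0]; linarith
        calc _ ≤ (H.c : ℚ) * (θ / (H.c + 1) * q ^ n) :=
              mul_le_mul_of_nonneg_left hρ (Nat.cast_nonneg _)
          _ = (H.c : ℚ) * (θ / (H.c + 1)) * q ^ n := by ring
          _ < θ * q ^ n := mul_lt_mul_of_pos_right h1 hq
          _ ≤ _ := hcard
    have e2 : t • H.π g hg = (F ^ n) (H.π l hl) - H.π l hl := by
      rw [hF, ← AH.π_sub, ← AH.π_nsmul]
      exact AH.π_eq.2 ⟨t • γ, (sub_eq_zero.1 hz).symm⟩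
    obtain ⟨k, hk⟩ := Nat.dvd_factorial (show 0 < t by omega) (show t ≤ s by omega)
    obtain ⟨u, hu⟩ := hfit n hn1 (H.π g hg) (k • H.π l hl) (by
      rw [hk, mul_comm, mul_nsmul', e2, map_nsmul]
      exact nsmul_sub _ _ _)
    obtain ⟨μ, hμ, rfl⟩ := AH.π_surj u
    rw [hF, ← AH.π_sub] at hu
    obtain ⟨γ', hγ⟩ := AH.π_eq.1 hu
    refine ⟨γ', fun x hx => ?_⟩
    have := congrArg (H.sp x) hγ
    rw [h.sp_up, map_sub, h.sp_T hμ hx, sub_zero] at this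
    exact this.symm
  obtain ⟨i, j, hij, e⟩ := Fintype.exists_ne_map_eq_of_card_lt
    (fun i : Fin (s + 1) => col ((i : ℕ) • g)) (by simp)
  rcases lt_or_gt_of_ne hij with h1 | h1
  · exact key i j h1 (Nat.lt_succ_iff.1 j.2) e.symm
  · exact key j i h1 (Nat.lt_succ_iff.1 i.2) e

end Pool.Agent.P.MP_ab3ecb_nt.Cc
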