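import Mathlib

/-! The abstract setting: classes, Frobenius, specialization and heights. -/

namespace Pool.Agent.P.MP_ab3ecb_nt.Cc

open Polynomial

set_option linter.dupNamespace false
set_option linter.unusedVariables false

/-- A positive definite form `b` that `F` multiplies by `q`. -/
structure Lat {Λ : Type} [AddCommGroup Λ] (q : ℕ) (F : Module.End ℤ Λ) (b : Λ →+ Λ →+ ℚ) :
    Prop where
  two : 2 ≤ q
  symm : ∀ a a', b a a' = b a' a
  pos : ∀ a, a ≠ 0 → 0 < b a a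
  scal : ∀ a a', b (F a) (F a') = q * b a a'

section form

variable {Λ : Type} [AddCommGroup Λ] {b : Λ →+ Λ →+ ℚ}

lemma form_zsmul (b : Λ →+ Λ →+ ℚ) (n : ℤ) (a : Λ) : b (n • a) (n • a) = n ^ 2 * b a a := by
  simp only [map_zsmul, AddMonoidHom.zsmul_apply, zsmul_eq_mul]
  ring

lemma form_nsmul (b : Λ →+ Λ →+ ℚ) (n : ℕ) (a : Λ) : b (n • a) (n • a) = n ^ 2 * b a a := by
  simpa using form_zsmul b n a

lemma form_add_le (hs : ∀ a a', b a a' = b a' a) (hp : ∀ a, 0 ≤ b a a) (a a' : Λ) :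
    b (a + a') (a + a') ≤ 2 * b a a + 2 * b a' a' := by
  have := hp (a - a')
  simp only [map_sub, map_add, AddMonoidHom.sub_apply, AddMonoidHom.add_apply] at this ⊢
  linarith [hs a a']

lemma form_sub_le (hs : ∀ a a', b a a' = b a' a) (hp : ∀ a, 0 ≤ b a a) (a a' : Λ) :
    b (a - a') (a - a') ≤ 2 * b a a + 2 * b a' a' := by
  simpa [← sub_eq_add_neg] using form_add_le hs hp a (-a')

lemma form_pow {F : Module.End ℤ Λ} {q : ℕ} (h : ∀ a a', b (F a) (F a') = q * b a a') (n : ℕ)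
    (a a' : Λ) : b ((F ^ n) a) ((F ^ n) a') = q ^ n * b a a' := by
  induction n with
  | zero => simp
  | succ n ih => rw [pow_succ', Module.End.mul_apply, Module.End.mul_apply, h, ih]; ring

lemma form_sum_le (b : Λ →+ Λ →+ ℚ) {ι : Type} [Fintype ι] (e : ι → Λ) (z : ι → ℤ) {m : ℚ}
    (h : ∀ i, |(z i : ℚ)| ≤ m) :
    b (∑ i, z i • e i) (∑ i, z i • e i) ≤ m ^ 2 * ∑ i, ∑ j, |b (e j) (e i)| := by
  simp only [map_sum, map_zsmul, AddMonoidHom.finsetSum_apply, AddMonoidHom.zsmul_apply,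
    zsmul_eq_mul, Finset.mul_sum]
  refine Finset.sum_le_sum fun i _ => Finset.sum_le_sum fun j _ => (le_abs_self _).trans ?_
  rw [abs_mul, abs_mul, ← mul_assoc, sq]
  exact mul_le_mul_of_nonneg_right (mul_le_mul (h i) (h j) (abs_nonneg _)
    ((abs_nonneg _).trans (h i))) (abs_nonneg _)

variable {q : ℕ} {F : Module.End ℤ Λ}

lemma Lat.psd (h : Lat q F b) (a : Λ) : 0 ≤ b a a := by
  rcases eq_or_ne a 0 with rfl | e
  · simp
  · exact (h.pos a e).le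

lemma Lat.eq_zero (h : Lat q F b) {a : Λ} (e : b a a = 0) : a = 0 :=
  by_contra fun e1 => (h.pos a e1).ne' e

lemma Lat.tf (h : Lat q F b) {n : ℤ} (hn : n ≠ 0) {a : Λ} (e : n • a = 0) : a = 0 :=
  h.eq_zero (by
    have := form_zsmul b n a
    rw [e, map_zero] at this
    exact (mul_eq_zero.1 this.symm).resolve_left (pow_ne_zero _ (Int.cast_ne_zero.2 hn)))

lemma Lat.fix (h : Lat q F b) {n : ℕ} (hn : 0 < n) {a : Λ} (e : (F ^ n) a = a) : a = 0 :=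
  h.eq_zero (by
    have h1 := form_pow h.scal n a a
    have h2 : (1 : ℚ) < q ^ n := one_lt_pow₀ (by exact_mod_cast h.two) hn.ne'
    rw [e] at h1
    nlinarith [h.psd a])

lemma Lat.le (h : Lat q F b) (n : ℕ) (a : Λ) :
    b ((F ^ n) a - a) ((F ^ n) a - a) ≤ 4 * q ^ n * b a a := by
  have h1 := form_sub_le h.symm h.psd ((F ^ n) a) a
  have h2 : (1 : ℚ) ≤ q ^ n := one_le_pow₀ (by exact_mod_cast one_le_two.trans h.two)
  rw [form_pow h.scal] at h1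
  nlinarith [h.psd a]

end form

lemma map_aeval {M N : Type} [AddCommGroup M] [AddCommGroup N] {F : Module.End ℤ M}
    {G : Module.End ℤ N} (u : M →+ N) (h : ∀ a, u (F a) = G (u a)) (R : ℤ[X]) (a : M) :
    u (aeval F R a) = aeval G R (u a) := by
  induction R using Polynomial.induction_on' with
  | add p r hp hr => simp [hp, hr]
  | monomial n c =>
    have : ∀ m : ℕ, u ((F ^ m) a) = (G ^ m) (u a) := fun m => by
      induction m with
      | zero => simp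
      | succ m ih => rw [pow_succ', pow_succ', Module.End.mul_apply, Module.End.mul_apply, h, ih]
    simp [aeval_monomial, this]

lemma map_pow_end {M N : Type} [AddCommGroup M] [AddCommGroup N] {F : Module.End ℤ M}
    {G : Module.End ℤ N} (u : M →+ N) (h : ∀ a, u (F a) = G (u a)) (n : ℕ) (a : M) :
    u ((F ^ n) a) = (G ^ n) (u a) := by simpa using map_aeval u h (X ^ n) a

lemma aeval_mem {M : Type} [AddCommGroup M] {F : Module.End ℤ M} {N : AddSubgroup M}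
    (h : ∀ a ∈ N, F a ∈ N) (R : ℤ[X]) {a : M} (ha : a ∈ N) : aeval F R a ∈ N := by
  induction R using Polynomial.induction_on' with
  | add p r hp hr => simpa using add_mem hp hr
  | monomial n c =>
    have : ∀ m : ℕ, (F ^ m) a ∈ N := fun m => by
      induction m with
      | zero => simpa
      | succ m ih => rw [pow_succ', Module.End.mul_apply]; exact h _ ih
    simpa [aeval_monomial] using zsmul_mem (this n) c

/-- Points and classes of a curve, with Frobenius. -/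
structure AC where
  X : Type
  P : Type
  [ag : AddCommGroup P]
  f : X → X
  F : Module.End ℤ P
  cl : X → P
  dg : P →+ ℤ

attribute [instance] AC.ag

namespace AC

variable (C : AC)

/-- The points fixed by the `n`-th power of Frobenius. -/
def T (n : ℕ) : Set C.X := {x | C.f^[n] x = x}

/-- The classes of degree zero fixed by the `n`-th power of Frobenius. -/
def J (n : ℕ) : Set C.P := {a | C.dg a = 0 ∧ (C.F ^ n) a = a}

/-- The properties of a curve. -/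
structure Ok (q : ℕ) : Prop where
  two : 2 ≤ q
  dg_cl : ∀ x, C.dg (C.cl x) = 1
  F_cl : ∀ x, C.F (C.cl x) = C.cl (C.f x)
  gen : AddSubgroup.closure (Set.range C.cl) = ⊤
  per : ∀ x, ∃ n, 0 < n ∧ x ∈ C.T n
  fin : ∀ n, 0 < n → (C.T n).Finite
  cnt : ∃ n0, ∀ n, n0 ≤ n → q ^ n ≤ 2 * (C.T n).ncard
  jn : ∃ N, ∀ n, 0 < n → (C.J n).Finite ∧ (C.J n).ncard ≤ q ^ (N * n)

/-- Genus at least two. -/
structure G2 : Prop where
  inj : Function.Injective C.cl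
  g12 : ∀ P Q P' Q' R S R' S', C.cl P + C.cl Q = C.cl P' + C.cl Q' → P ≠ P' → P ≠ Q' →
    C.cl R + C.cl S = C.cl R' + C.cl S' → R ≠ R' → R ≠ S' → C.cl P + C.cl Q = C.cl R + C.cl S

/-- A nonzero polynomial in Frobenius kills the classes of degree zero. -/
def Pol : Prop := ∃ R : ℤ[X], R ≠ 0 ∧ ∀ a, C.dg a = 0 → aeval C.F R a = 0

/-- The classes killed by a power of `q`. -/
def Tq (q : ℕ) : AddSubgroup C.P where
  carrier := {a | ∃ b : ℕ, q ^ b • a = 0}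
  zero_mem' := ⟨0, smul_zero _⟩
  add_mem' := fun {_ y} ⟨b, h⟩ ⟨c, h'⟩ => ⟨b + c, by
    rw [smul_add, pow_add, mul_smul _ _ y, h', mul_comm, mul_smul, h, smul_zero, smul_zero,
      add_zero]⟩
  neg_mem' := fun ⟨b, h⟩ => ⟨b, by rw [smul_neg, h, neg_zero]⟩

variable {C} {q m n : ℕ} {x : C.X}

lemma mem_T : x ∈ C.T n ↔ C.f^[n] x = x := Iff.rfl

lemma T_dvd (h : x ∈ C.T m) (hn : m ∣ n) : x ∈ C.T n := Function.IsPeriodicPt.trans_dvd h hn

lemma T_f (h : x ∈ C.T n) : C.f x ∈ C.T n := Function.IsPeriodicPt.apply h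

lemma G2.uniq (h : C.G2) {P Q R P' Q' R' : C.X} (e1 : C.cl P - C.cl Q = C.cl P' - C.cl Q')
    (e2 : C.cl Q - C.cl R = C.cl Q' - C.cl R') (h1 : P ≠ Q) (h2 : Q ≠ R) (h3 : P ≠ R) :
    P = P' ∧ Q = Q' ∧ R = R' := by
  have key : Q = Q' := by_contra fun e => by
    have := h.g12 P Q' Q P' Q' R Q R' (by linear_combination (norm := abel) e1) h1
      (fun e' => e (h.inj (sub_right_injective (e' ▸ e1)))) (by linear_combination (norm := abel) -e2)
      (Ne.symm e) fun e' => h2 (h.inj (by rwa [e', sub_self, sub_eq_zero] at e2))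
    exact h3 (h.inj (by linear_combination (norm := abel) this))
  subst key
  exact ⟨h.inj (sub_left_injective e1), rfl, h.inj (sub_right_injective e2)⟩

lemma G2.two (h : C.G2) {d : C.P} (hd : d ≠ 0) {P Q P' Q' P'' Q'' : C.X}
    (e : C.cl P - C.cl Q = d) (e' : C.cl P' - C.cl Q' = d) (e'' : C.cl P'' - C.cl Q'' = d) :
    Q = Q' ∨ Q = Q'' ∨ Q' = Q'' := by
  have hP : Q ≠ P := fun e1 => hd (by rw [← e, e1, sub_self])
  by_contra h0
  push Not at h0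
  have := h.g12 Q P' Q' P Q P'' Q'' P (by linear_combination (norm := abel) e' - e) h0.1 hP
    (by linear_combination (norm := abel) e'' - e) h0.2.1 hP
  exact h0.2.2 (h.inj (by linear_combination (norm := abel) this + e'' - e'))

namespace Ok

variable (h : C.Ok q)
include h

lemma pow_cl (n : ℕ) (x : C.X) : (C.F ^ n) (C.cl x) = C.cl (C.f^[n] x) := by
  induction n with
  | zero => rfl
  | succ n ih => rw [pow_succ', Module.End.mul_apply, ih, h.F_cl, Function.iterate_succ_apply']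

lemma ind {p : C.P → Prop} (h1 : ∀ x, p (C.cl x)) (h0 : p 0) (ha : ∀ a b, p a → p b → p (a + b))
    (hn : ∀ a, p a → p (-a)) (a : C.P) : p a := by
  have : a ∈ AddSubgroup.closure (Set.range C.cl) := h.gen ▸ AddSubgroup.mem_top a
  induction this using AddSubgroup.closure_induction with
  | mem _ e => obtain ⟨x, rfl⟩ := e; exact h1 x
  | zero => exact h0
  | add a b _ _ e e' => exact ha a b e e'
  | neg a _ e => exact hn a e

lemma hom_ext {A : Type} [AddCommGroup A] {u v : C.P →+ A} (e : ∀ x, u (C.cl x) = v (C.cl x)) :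
    u = v := AddMonoidHom.eq_of_eqOn_dense h.gen fun _ ⟨x, hx⟩ => hx ▸ e x

lemma dg_F (a : C.P) : C.dg (C.F a) = C.dg a :=
  DFunLike.congr_fun (h.hom_ext (u := C.dg.comp C.F.toAddMonoidHom) (v := C.dg) fun x => by
    simp [h.F_cl, h.dg_cl]) a

lemma dg_aeval (R : ℤ[X]) {a : C.P} (e : C.dg a = 0) : C.dg (aeval C.F R a) = 0 :=
  aeval_mem (N := C.dg.ker) (fun a e => (h.dg_F a).trans e) R e

lemma per_fin (S : Finset C.X) : ∃ m, 0 < m ∧ ∀ x ∈ S, x ∈ C.T m := by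
  choose n h0 hn using h.per
  exact ⟨∏ x ∈ S, n x, Finset.prod_pos fun x _ => h0 x, fun x hx =>
    T_dvd (hn x) (Finset.dvd_prod_of_mem n hx)⟩

lemma f_inj : Function.Injective C.f := fun x y e => by
  classical
  obtain ⟨m, h0, hm⟩ := h.per_fin {x, y}
  exact Function.IsPeriodicPt.eq_of_apply_eq_same (hm x (by simp)) (hm y (by simp)) h0 e

lemma F_per (a : C.P) : ∃ n, 0 < n ∧ ∀ m, n ∣ m → (C.F ^ m) a = a := by
  refine h.ind (p := fun a => ∃ n, 0 < n ∧ ∀ m, n ∣ m → (C.F ^ m) a = a) (fun x => ?_)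
    ⟨1, one_pos, fun _ _ => map_zero _⟩ (fun a b ⟨n, h0, hn⟩ ⟨n', h0', hn'⟩ =>
      ⟨n * n', mul_pos h0 h0', fun m e => by
        rw [map_add, hn m (dvd_of_mul_right_dvd e), hn' m (dvd_of_mul_left_dvd e)]⟩)
    (fun a ⟨n, h0, hn⟩ => ⟨n, h0, fun m e => by rw [map_neg, hn m e]⟩) a
  obtain ⟨n, h0, hn⟩ := h.per x
  exact ⟨n, h0, fun m e => by rw [h.pow_cl, mem_T.1 (T_dvd hn e)]⟩

lemma F_inj {a : C.P} (e : C.F a = 0) : a = 0 := by
  obtain ⟨n, h0, hn⟩ := h.F_per a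
  obtain ⟨n, rfl⟩ := Nat.exists_eq_succ_of_ne_zero h0.ne'
  rw [← hn _ dvd_rfl, pow_succ, Module.End.mul_apply, e, map_zero]

/-- Large finite sets of points. -/
lemma big : ∃ n0, 0 < n0 ∧ ∀ n, n0 ≤ n → ∃ Z : Finset C.X, (∀ x, x ∈ Z ↔ x ∈ C.T n) ∧
    (q : ℚ) ^ n ≤ 2 * Z.card := by
  obtain ⟨n0, h0⟩ := h.cnt
  refine ⟨n0 + 1, by omega, fun n hn => ⟨(h.fin n (by omega)).toFinset, fun x => by simp, ?_⟩⟩
  rw [← Set.ncard_eq_toFinset_card _ (h.fin n (by omega))]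
  exact_mod_cast h0 n (by omega)

lemma nonempty : Nonempty C.X := by
  obtain ⟨n0, -, h0⟩ := h.big
  obtain ⟨Z, -, h1⟩ := h0 n0 le_rfl
  have : (0 : ℚ) < q ^ n0 := pow_pos (by exact_mod_cast zero_lt_two.trans_le h.two) _
  obtain ⟨x, -⟩ := Finset.card_pos.1 (show 0 < Z.card by
    by_contra e
    rw [show Z.card = 0 by omega] at h1
    simp at h1
    linarith)
  exact ⟨x⟩

end Ok

end AC

/-- Classes on the base change of `C` to the function field of `D`. -/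
structure AH (C D : AC) where
  P : Type
  [ag : AddCommGroup P]
  F : Module.End ℤ P
  up : C.P →+ P
  sp : D.X → P →+ C.P
  β : P →+ P →+ ℚ
  Mg : AddSubgroup P
  M : AddSubgroup P
  c : ℕ
  N : ℕ
  Mor : Type
  mc : Mor → P
  mv : Mor → D.X → C.X

attribute [instance] AH.ag

namespace AH

variable {C D : AC} (H : AH C D)

/-- The properties of heights. -/
structure Ok (q : ℕ) : Prop where
  oC : C.Ok q
  oD : D.Ok q
  symm : ∀ a b, H.β a b = H.β b a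
  psd : ∀ a, 0 ≤ H.β a a
  cst : ∀ γ, H.β (H.up γ) = 0
  scal : ∀ a b, H.β (H.F a) (H.F b) = q * H.β a b
  sp_up : ∀ x γ, H.sp x (H.up γ) = γ
  sp_F : ∀ x a, H.sp x (H.F a) = C.F (H.sp x a)
  F_up : ∀ γ, H.up (C.F γ) = H.F (H.up γ)
  dgs : ∀ x x' a, C.dg (H.sp x a) = C.dg (H.sp x' a)
  le : H.M ≤ H.Mg
  up_mem : ∀ γ, H.up γ ∈ H.Mg
  F_mem : ∀ a ∈ H.M, H.F a ∈ H.M
  F_memg : ∀ a ∈ H.Mg, H.F a ∈ H.Mg
  fix : ∀ a ∈ H.M, ∀ x, H.sp (D.f x) a = C.F (H.sp x a)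
  N0 : 0 < H.N
  int : ∀ a ∈ H.M, ∀ b ∈ H.M, ∃ n : ℤ, H.N * H.β a b = n
  zero : ∀ a ∈ H.Mg, a ≠ 0 → ∀ Z : Finset D.X, (∀ x ∈ Z, H.sp x a = 0) →
    (Z.card : ℚ) ≤ H.c * H.β a a
  lin : ∀ a ∈ H.M, ∀ Z : D.X →₀ ℤ, (Z.sum fun x n => n • D.cl x) = 0 →
    (Z.sum fun x n => n • H.sp x a) ∈ C.Tq q
  mc_mem : ∀ f, H.mc f ∈ H.M
  sp_mc : ∀ f x, H.sp x (H.mc f) = C.cl (H.mv f x)
  mF : ∀ f, ∃ f', ∀ x, H.mv f' x = C.f (H.mv f x)
  mex : ∀ y, C.f y = y → ∃ f, ∀ x, H.mv f x = y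

/-- Classes with many triples of points come from morphisms. -/
def Tri : Prop := ∀ a ∈ H.M, ∀ b ∈ H.M, a ≠ 0 → b ≠ 0 → a + b ≠ 0 → ∀ Z : Finset D.X,
  (∀ x ∈ Z, ∃ P Q R, H.sp x a = C.cl P - C.cl Q ∧ H.sp x b = C.cl Q - C.cl R) →
  H.c * (H.β a a + H.β b b) < Z.card →
  ∃ (e : ℕ) (f1 f2 f3 : H.Mor), (H.F ^ e) a = H.mc f1 - H.mc f2 ∧ (H.F ^ e) b = H.mc f2 - H.mc f3

/-- The map `ψ` survives the sieve. -/
def Sv (ψ : D.X → C.X) : Prop :=
  ∀ S : Finset D.X, ∃ a ∈ H.M, ∀ x ∈ S, H.sp x a = C.cl (ψ x)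

/-- The lattice of `M` modulo constants. -/
abbrev Λ := H.M ⧸ H.up.range.addSubgroupOf H.M

/-- The class in the lattice. -/
def π (a : H.P) (h : a ∈ H.M) : H.Λ := QuotientAddGroup.mk ⟨a, h⟩

/-- Finite generation modulo constants. -/
def FG : Prop := Module.Finite ℤ H.Λ

/-- Approximate constancy on many points gives constancy on all points of a smaller level. -/
def Upg (q : ℕ) : Prop := ∀ (m : ℕ) (θ : ℚ), 0 < m → 0 < θ → ∃ n1, 0 < n1 ∧ m ∣ n1 ∧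
  ∀ n, 0 < n → n1 ∣ n → ∀ g ∈ H.M, ∀ (γ : C.P) (Z : Finset D.X),
    (∀ x ∈ Z, x ∈ D.T n ∧ H.sp x g = γ) → θ * q ^ n ≤ Z.card → ∃ γ', ∀ x ∈ D.T m, H.sp x g = γ'

/-- The pigeonhole principle modulo the image of `F ^ n - 1`. -/
def Col (q : ℕ) : Prop := ∀ ε : ℚ, 0 < ε → ∃ s : ℕ, ∀ n, 0 < n → ∃ col : H.P → Fin s,
  ∀ a ∈ H.M, ∀ b ∈ H.M, col a = col b → ∃ l ∈ H.M,
    H.β (a - b - ((H.F ^ n) l - l)) (a - b - ((H.F ^ n) l - l)) ≤ ε * q ^ n

variable {H} {q : ℕ}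

lemma π_surj (u : H.Λ) : ∃ a h, H.π a h = u := by
  obtain ⟨⟨a, h⟩, rfl⟩ := QuotientAddGroup.mk_surjective u
  exact ⟨a, h, rfl⟩

lemma π_eq {a b : H.P} {ha : a ∈ H.M} {hb : b ∈ H.M} :
    H.π a ha = H.π b hb ↔ ∃ γ, H.up γ = a - b := QuotientAddGroup.eq_iff_sub_mem

lemma π_add {a b : H.P} (ha : a ∈ H.M) (hb : b ∈ H.M) :
    H.π (a + b) (add_mem ha hb) = H.π a ha + H.π b hb := rfl

lemma π_sub {a b : H.P} (ha : a ∈ H.M) (hb : b ∈ H.M) :
    H.π (a - b) (sub_mem ha hb) = H.π a ha - H.π b hb := rfl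

lemma π_nsmul {a : H.P} (ha : a ∈ H.M) (n : ℕ) : H.π (n • a) (nsmul_mem ha n) = n • H.π a ha := rfl

namespace Ok

variable (h : H.Ok q)
include h

lemma cst' (a : H.P) (γ : C.P) : H.β a (H.up γ) = 0 := by rw [h.symm, h.cst]; rfl

lemma sub_up (a : H.P) (γ : C.P) : H.β (a - H.up γ) (a - H.up γ) = H.β a a := by
  simp [h.cst, h.cst']

lemma sp_pow (x : D.X) (n : ℕ) (a : H.P) : H.sp x ((H.F ^ n) a) = (C.F ^ n) (H.sp x a) :=
  map_pow_end _ (h.sp_F x) n a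

lemma sp_aeval (x : D.X) (R : ℤ[X]) (a : H.P) :
    H.sp x (aeval H.F R a) = aeval C.F R (H.sp x a) := map_aeval _ (h.sp_F x) R a

lemma up_pow (n : ℕ) (γ : C.P) : H.up ((C.F ^ n) γ) = (H.F ^ n) (H.up γ) :=
  map_pow_end _ h.F_up n γ

lemma pow_mem {a : H.P} (ha : a ∈ H.M) (n : ℕ) : (H.F ^ n) a ∈ H.M := by
  simpa using aeval_mem h.F_mem (X ^ n) ha

lemma pow_memg {a : H.P} (ha : a ∈ H.Mg) (n : ℕ) : (H.F ^ n) a ∈ H.Mg := by
  simpa using aeval_mem h.F_memg (X ^ n) ha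

lemma fix_pow {a : H.P} (ha : a ∈ H.M) (n : ℕ) (x : D.X) :
    H.sp (D.f^[n] x) a = (C.F ^ n) (H.sp x a) := by
  induction n with
  | zero => rfl
  | succ n ih => rw [Function.iterate_succ_apply', h.fix a ha, ih, pow_succ', Module.End.mul_apply]

lemma sp_T {a : H.P} (ha : a ∈ H.M) {n : ℕ} {x : D.X} (hx : x ∈ D.T n) :
    H.sp x ((H.F ^ n) a - a) = 0 := by
  rw [map_sub, h.sp_pow, ← h.fix_pow ha, AC.mem_T.1 hx, sub_self]

lemma van {a : H.P} (ha : a ∈ H.Mg) (Z : Finset D.X) (hZ : ∀ x ∈ Z, H.sp x a = 0)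
    (e : H.c * H.β a a < Z.card) : a = 0 := by_contra fun e1 => (h.zero a ha e1 Z hZ).not_gt e

lemma van_all {a : H.P} (ha : a ∈ H.Mg) (e : ∀ x, H.sp x a = 0) : a = 0 := by
  obtain ⟨n0, -, h0⟩ := h.oD.big
  obtain ⟨n, hn⟩ := pow_unbounded_of_one_lt (2 * (H.c * H.β a a)) (show (1 : ℚ) < q by
    exact_mod_cast h.oD.two)
  obtain ⟨Z, -, h1⟩ := h0 (n + n0) (by omega)
  have h2 : (q : ℚ) ^ n ≤ q ^ (n + n0) :=
    pow_le_pow_right₀ (by exact_mod_cast one_le_two.trans h.oD.two) (by omega)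
  exact h.van ha Z (fun x _ => e x) (by linarith)

lemma rad {a : H.P} (ha : a ∈ H.Mg) (e : H.β a a = 0) (x : D.X) : H.up (H.sp x a) = a :=
  (sub_eq_zero.1 (h.van (sub_mem ha (h.up_mem _)) {x} (by simp [h.sp_up])
    (by rw [h.sub_up, e]; simp))).symm

lemma le4 (n : ℕ) (a : H.P) :
    H.β ((H.F ^ n) a - a) ((H.F ^ n) a - a) ≤ 4 * q ^ n * H.β a a := by
  have h1 := form_sub_le h.symm h.psd ((H.F ^ n) a) a
  have h2 : (1 : ℚ) ≤ q ^ n := one_le_pow₀ (by exact_mod_cast one_le_two.trans h.oC.two)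
  rw [form_pow h.scal] at h1
  nlinarith [h.psd a]

lemma mpow (f : H.Mor) (n : ℕ) : ∃ f', ∀ x, H.mv f' x = C.f^[n] (H.mv f x) := by
  induction n with
  | zero => exact ⟨f, fun _ => rfl⟩
  | succ n ih =>
    obtain ⟨f1, h1⟩ := ih
    obtain ⟨f2, h2⟩ := h.mF f1
    exact ⟨f2, fun x => by rw [h2, h1, Function.iterate_succ_apply']⟩

/-- The structure of the lattice. -/
lemma lat : ∃ (F : Module.End ℤ H.Λ) (b : H.Λ →+ H.Λ →+ ℚ), Lat q F b ∧
    (∀ (n : ℕ) a ha, (F ^ n) (H.π a ha) = H.π _ (h.pow_mem ha n)) ∧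
    ∀ a ha a' ha', b (H.π a ha) (H.π a' ha') = H.β a a' := by
  let F0 : H.M →+ H.M := (H.F.toAddMonoidHom.comp H.M.subtype).codRestrict _ fun a => h.F_mem _ a.2
  let F : H.Λ →+ H.Λ := QuotientAddGroup.map _ _ F0 fun a ⟨γ, e⟩ =>
    ⟨C.F γ, (h.F_up γ).trans (congrArg H.F e)⟩
  let b0 : H.M →+ H.Λ →+ ℚ :=
    { toFun := fun a => QuotientAddGroup.lift _ ((H.β a).comp H.M.subtype) fun a' ⟨γ, e⟩ =>
        (congrArg (H.β a) e.symm).trans (h.cst' _ γ)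
      map_zero' := QuotientAddGroup.addMonoidHom_ext _ (AddMonoidHom.ext fun a => by simp)
      map_add' := fun a a' =>
        QuotientAddGroup.addMonoidHom_ext _ (AddMonoidHom.ext fun u => by simp) }
  let b : H.Λ →+ H.Λ →+ ℚ := QuotientAddGroup.lift _ b0 fun a ⟨γ, e⟩ =>
    QuotientAddGroup.addMonoidHom_ext _ (AddMonoidHom.ext fun u =>
      (congrArg (H.β · u) e.symm).trans (DFunLike.congr_fun (h.cst γ) _))
  have hb : ∀ a ha a' ha', b (H.π a ha) (H.π a' ha') = H.β a a' := fun _ _ _ _ => rfl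
  refine ⟨F.toIntLinearMap, b, ⟨h.oC.two, fun u v => ?_, fun u e => ?_, fun u v => ?_⟩,
    fun n a ha => ?_, hb⟩
  · obtain ⟨a, ha, rfl⟩ := π_surj u
    obtain ⟨a', ha', rfl⟩ := π_surj v
    exact h.symm a a'
  · obtain ⟨a, ha, rfl⟩ := π_surj u
    obtain ⟨x⟩ := h.oD.nonempty
    exact (h.psd a).lt_of_ne' fun e1 => e ((QuotientAddGroup.eq_zero_iff _).2
      ⟨_, h.rad (h.le ha) e1 x⟩)
  · obtain ⟨a, ha, rfl⟩ := π_surj u
    obtain ⟨a', ha', rfl⟩ := π_surj v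
    exact h.scal a a'
  · induction n with
    | zero => rfl
    | succ n ih =>
      rw [pow_succ', Module.End.mul_apply, ih]
      simp only [pow_succ', Module.End.mul_apply]
      rfl

lemma sv_f (hi : Function.Injective C.cl) {ψ : D.X → C.X} (hψ : H.Sv ψ) (x : D.X) :
    ψ (D.f x) = C.f (ψ x) := by
  classical
  obtain ⟨a, ha, e⟩ := hψ {x, D.f x}
  exact hi (by rw [← e _ (by simp), h.fix a ha, e _ (by simp), h.oC.F_cl])

lemma sv_T (hi : Function.Injective C.cl) {ψ : D.X → C.X} (hψ : H.Sv ψ) {n : ℕ} {x : D.X}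
    (hx : x ∈ D.T n) : ψ x ∈ C.T n :=
  (Function.Semiconj.iterate_right (h.sv_f hi hψ) n x).symm.trans (congrArg ψ hx)

end Ok

end AH

end Pool.Agent.P.MP_ab3ecb_nt.Cc
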