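import Pool.Agent.P.MP_ab3ecb_nt.Cc.IfA

/-! Step COL. -/

namespace Pool.Agent.P.MP_ab3ecb_nt.Cc

open Polynomial

theorem p_COL (hPH : S_PH) :
    S_COL := by
  classical
  intro C D H q h hF ε hε
  have : Module.Finite ℤ H.Λ := hF
  obtain ⟨F, b, h1, h2, h3⟩ := h.lat
  obtain ⟨s, hs⟩ := hPH _ q F b h1 ε hε
  refine ⟨s, fun n hn => ?_⟩
  obtain ⟨col, hc⟩ := hs n hn
  refine ⟨fun a => if k : a ∈ H.M then col (H.π a k) else col 0, fun a ha a' ha' e => ?_⟩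
  simp only [dif_pos ha, dif_pos ha'] at e
  obtain ⟨u, hu⟩ := hc _ _ e
  obtain ⟨l, hl, rfl⟩ := AH.π_surj u
  rw [h2, ← AH.π_sub, ← AH.π_sub, ← AH.π_sub, h3] at hu
  exact ⟨l, hl, hu⟩

end Pool.Agent.P.MP_ab3ecb_nt.Cc
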