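import Pool.Agent.P.MP_ab3ecb_nt.Cc.IfA

/-! Step EXP. -/

namespace Pool.Agent.P.MP_ab3ecb_nt.Cc

open Polynomial

namespace EXPb

variable {C : AC} {q : ℕ}

lemma pow_inj (h : C.Ok q) (j : ℕ) {a : C.P} (e : (C.F ^ j) a = 0) : a = 0 := by
  induction j with
  | zero => simpa using e
  | succ j ih =>
    rw [pow_succ', Module.End.mul_apply] at e
    exact ih (h.F_inj e)

lemma strip (h : C.Ok q) {R1 R2 R : ℤ[X]} {j : ℕ} (e : R2 * R1 = X ^ j * R)
    (k : ∀ a, C.dg a = 0 → aeval C.F R1 a = 0) (a : C.P) (ha : C.dg a = 0) :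
    aeval C.F R a = 0 := by
  have := congrArg (fun p => aeval C.F p a) e
  simp only [map_mul, map_pow, aeval_X, Module.End.mul_apply, k a ha, map_zero] at this
  exact pow_inj h j this.symm

lemma expand {R Q S : ℤ[X]} {n m : ℕ} (k : ∀ a, C.dg a = 0 → aeval C.F R a = 0)
    (e : (X : ℤ[X]) ^ n - 1 = m • Q + S * R) (a : C.P) (ha : C.dg a = 0) :
    (C.F ^ n) a - a = m • aeval C.F Q a := by
  have := congrArg (fun p => aeval C.F p a) e
  simpa only [map_sub, map_add, map_nsmul, map_mul, map_pow, map_one, aeval_X,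
    Module.End.mul_apply, k a ha, map_zero, LinearMap.sub_apply, LinearMap.add_apply,
    LinearMap.smul_apply, Module.End.one_apply, add_zero] using this

lemma tors (h : C.Ok q) {l n : ℕ} {Q : ℤ[X]} (hl : l ≠ 0) (hn : 0 < n)
    (e : ∀ a, C.dg a = 0 → (C.F ^ n) a - a = l • aeval C.F Q a) :
    {a : C.P | l • a = 0}.Finite := by
  obtain ⟨N, hN⟩ := h.jn
  refine (hN n hn).1.subset fun a (ha : l • a = 0) => ?_
  have h0 : C.dg a = 0 := by
    have := map_nsmul C.dg l a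
    rw [ha, map_zero, nsmul_eq_mul] at this
    exact (mul_eq_zero.1 this.symm).resolve_left (Nat.cast_ne_zero.2 hl)
  refine ⟨h0, sub_eq_zero.1 ?_⟩
  rw [e a h0, ← map_nsmul, ha, map_zero]

lemma quot {l : ℕ} (hc : l.Coprime q) (hf : {a : C.P | l • a = 0}.Finite) :
    {a : C.P ⧸ C.Tq q | l • a = 0}.Finite := by
  refine (hf.image QuotientAddGroup.mk).subset fun z (hz : l • z = 0) => ?_
  obtain ⟨y, rfl⟩ := QuotientAddGroup.mk_surjective z
  have h1 : l • y ∈ C.Tq q := (QuotientAddGroup.eq_zero_iff _).1 (by simpa using hz)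
  obtain ⟨b, hb⟩ := id h1
  obtain ⟨u, v, e⟩ := Nat.isCoprime_iff_coprime.2 (hc.pow_right b)
  refine ⟨v • q ^ b • y, ?_, QuotientAddGroup.eq_iff_sub_mem.2 ?_⟩
  · show l • v • q ^ b • y = 0
    rw [smul_comm l v, smul_comm l (q ^ b), hb, smul_zero]
  · have : v • q ^ b • y - y = (-u) • l • y := by
      rw [← natCast_zsmul, ← natCast_zsmul, smul_smul, smul_smul,
        show v * ((q ^ b : ℕ) : ℤ) = 1 + -u * l by linear_combination e, add_smul, one_smul,
        add_sub_cancel_left]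
    rw [this]
    exact zsmul_mem h1 _

end EXPb

theorem p_EXP (hCYC : S_CYC) :
    S_EXP := by
  intro C D q hC hD ⟨R1, h1, k1⟩ ⟨R2, h2, k2⟩
  obtain ⟨R, e, hR⟩ := exists_eq_pow_rootMultiplicity_mul_and_not_dvd (R1 * R2)
    (mul_ne_zero h1 h2) 0
  rw [map_zero, sub_zero] at e hR
  rw [X_dvd_iff] at hR
  have kC := EXPb.strip hC ((mul_comm R2 R1).trans e) k1
  have kD := EXPb.strip hD e k2
  obtain ⟨l, hl, hp⟩ := Nat.exists_infinite_primes ((R.coeff 0).natAbs + q + 1)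
  have hq := hC.two
  have hc : l.Coprime q := (Nat.Prime.coprime_iff_not_dvd hp).2 fun h => by
    have := Nat.le_of_dvd (by omega) h
    omega
  obtain ⟨n0, hn, hj⟩ := hCYC R l hp fun h => by
    have := Nat.le_of_dvd (Int.natAbs_pos.2 hR) (Int.natCast_dvd.1 h)
    omega
  obtain ⟨Q0, S0, e0⟩ := hj 0
  rw [pow_zero, mul_one, zero_add, pow_one] at e0
  refine ⟨l, n0, hp.two_le, hc, hn, EXPb.tors hD hp.ne_zero hn (EXPb.expand kD e0),
    EXPb.quot hc (EXPb.tors hC hp.ne_zero hn (EXPb.expand kC e0)), fun j => ?_⟩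
  obtain ⟨Q, S, e1⟩ := hj j
  exact ⟨Q, EXPb.expand kC e1, EXPb.expand kD e1⟩

end Pool.Agent.P.MP_ab3ecb_nt.Cc
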